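import Pool.Agent.R703.MO.Piece

/-!
# The Betti numbers of the cyclic coverings
-/

set_option autoImplicit false
set_option linter.unusedSectionVars false

namespace Pool.Agent.R703.MO

open Pool.Agent.W907.SG Module

section
variable {F : Type} [Field F] {V : Type} [Fintype V] [LinearOrder V] {X Y : Type} {G : SimpleGraph V} {B : Set V}
  (D : Dir G B X) {N : ℕ} {b : V → Y → Y}

/-- the pieces of the boundary of a chain with one piece -/
theorem Dir.pc_bd_ne {W : Finset V → X × ZMod N × Y → F} {i : ℕ}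
    (hW : W ∈ KK G (pull F (D.aN N b)) Set.univ ∅ i)
    (t : ZMod N) (h0 : ∀ x s, s ≠ t → D.pc W x s = 0) (x : X) (s : ZMod N) (h1 : s ≠ t) (h2 : s ≠ t + 1) :
    D.pc (bd F W) x s = 0 := by
  rw [D.pc_bd hW s (fun y => h0 y _ fun e => h2 (by rw [← e]; ring)) x, h0 x s h1, map_zero]

/-- killing the piece of a cycle at one height -/
theorem Dir.kill (hb1 : ∀ v y, b v (b v y) = y) (hb2 : ∀ u v, G.Adj u v → ∀ y, b u (b v y) = b v (b u y)) {i : ℕ}
    (hN : (1 : ZMod N) ≠ 0) {z : Finset V → X × ZMod N × Y → F} (t : ZMod N)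
    (h1 : ∀ x, D.pc z x t ∈ BB G (rr F B b) (D.U x) ∅ i) :
    ∃ W ∈ KK G (pull F (D.aN N b)) Set.univ ∅ (i + 1), (∀ x, D.pc (z - bd F W) x t = 0) ∧
      ∀ x s, s ≠ t → s ≠ t + 1 → D.pc (bd F W) x s = 0 := by
  choose w hw1 hw2 using h1
  obtain ⟨W, hW, hW1, hW2⟩ := D.extend hb1 hb2 t w (i + 1) hw1
  refine ⟨W, hW, fun x => ?_, fun x s hs1 hs2 => D.pc_bd_ne hW t hW2 x s hs1 hs2⟩
  rw [D.pc_sub, D.pc_bd hW t (fun y => hW2 y _ fun e => hN (by
    have : t - 1 = t - 0 := by rw [e]; ring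
    exact sub_right_injective this)) x, hW1, hw2, sub_self]

/-- one piece, as a linear map -/
noncomputable def Dir.pcx (D : Dir G B X) (F : Type) [Field F] (x : X) (t : ZMod N) :
    (Finset V → X × ZMod N × Y → F) →ₗ[F] (Finset V → Y → F) where
  toFun c := D.pc c x t
  map_add' c d := D.pc_add c d x t
  map_smul' k c := D.pc_smul k c x t

/-- the cycles without pieces at the heights `≤ m` -/
noncomputable def Dir.Km (D : Dir G B X) (F : Type) [Field F] (b : V → Y → Y) (N i m : ℕ) :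
    Submodule F (Finset V → X × ZMod N × Y → F) :=
  ZZ G (pull F (D.aN N b)) Set.univ ∅ i ⊓ ⨅ p : {s : ℕ // s ≤ m} × X, LinearMap.ker (D.pcx F p.2 (p.1.1 : ZMod N))

theorem Dir.mem_Km {i m : ℕ} {c : Finset V → X × ZMod N × Y → F} : c ∈ D.Km F b N i m ↔
    c ∈ ZZ G (pull F (D.aN N b)) Set.univ ∅ i ∧ ∀ s ≤ m, ∀ x, D.pc c x (s : ZMod N) = 0 := by
  unfold Dir.Km
  rw [Submodule.mem_inf, Submodule.mem_iInf]
  refine and_congr_right fun _ => ⟨fun h s hs x => h ⟨⟨s, hs⟩, x⟩, fun h p => ?_⟩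
  rw [LinearMap.mem_ker]
  exact h p.1.1 p.1.2 p.2

theorem finrank_quot {E : Type} [AddCommGroup E] [Module F E] [FiniteDimensional F E] {S T : Submodule F E}
    (h : S ≤ T) : finrank F (T ⧸ S.submoduleOf T) = finrank F T - finrank F S := by
  have h1 := Submodule.finrank_quotient_add_finrank (S.submoduleOf T)
  have h2 := (Submodule.submoduleOfEquivOfLe h).finrank_eq
  omega

theorem exists_q {E : Type} [AddCommGroup E] [Module F E] [FiniteDimensional F E] {S T : Submodule F E}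
    (h : S ≤ T) : ∃ q : E →ₗ[F] (Fin (finrank F T - finrank F S) → F), ∀ z ∈ T, q z = 0 → z ∈ S := by
  let e : (T ⧸ S.submoduleOf T) ≃ₗ[F] (Fin (finrank F T - finrank F S) → F) :=
    LinearEquiv.ofFinrankEq _ _ (by rw [finrank_quot h, finrank_fintype_fun_eq_card, Fintype.card_fin])
  obtain ⟨q, hq⟩ := LinearMap.exists_extend (e.toLinearMap.comp (Submodule.mkQ (S.submoduleOf T)))
  refine ⟨q, fun z hz h0 => ?_⟩
  have h1 := LinearMap.congr_fun hq ⟨z, hz⟩
  have h2 : q z = e (Submodule.Quotient.mk ⟨z, hz⟩) := h1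
  rw [h0] at h2
  have h3 := e.injective (h2.symm.trans (map_zero e).symm)
  have h4 : (⟨z, hz⟩ : T) ∈ S.submoduleOf T := (Submodule.Quotient.mk_eq_zero _).1 h3
  exact h4

variable [Fintype X] [Fintype Y]

/-- one step -/
theorem Dir.step (hb1 : ∀ v y, b v (b v y) = y) (hb2 : ∀ u v, G.Adj u v → ∀ y, b u (b v y) = b v (b u y)) {i : ℕ}
    [Fintype (ZMod N)] (m : ℕ) (hm : m + 3 ≤ N) :
    ∃ T : Submodule F (Finset V → X × ZMod N × Y → F),
      finrank F T ≤ ∑ x, beta G (rr F B b) (D.U x) ∅ i ∧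
      D.Km F b N i m ≤ (D.Km F b N i (m + 1) ⊔ BB G (pull F (D.aN N b)) Set.univ ∅ i) ⊔ T := by
  classical
  have h1N : (1 : ZMod N) ≠ 0 := by
    have : Fact (1 < N) := ⟨by omega⟩
    exact one_ne_zero
  have hne : ∀ a c : ℕ, a < c → c < N → (a : ZMod N) ≠ (c : ZMod N) := by
    intro a c hac hc h
    have h1 := (ZMod.natCast_eq_natCast_iff' a c N).1 h
    rw [Nat.mod_eq_of_lt (by omega), Nat.mod_eq_of_lt hc] at h1
    omega
  set K := D.Km F b N i m with hK
  have hz : ∀ (z : K) (x : X), D.pcx F x ((m + 1 : ℕ) : ZMod N) z.1 ∈ ZZ G (rr F B b) (D.U x) ∅ i := by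
    intro z x
    have h1 := (D.mem_Km).1 z.2
    refine ⟨D.pc_mem h1.1.1 x _, ?_⟩
    rw [SetLike.mem_coe, LinearMap.mem_ker]
    show bd F (D.pc z.1 x _) = 0
    rw [← D.pc_bd h1.1.1 _ (fun y => by
      have := h1.2 m le_rfl y
      rwa [show ((m + 1 : ℕ) : ZMod N) - 1 = (m : ZMod N) by push_cast; ring]) x,
      LinearMap.mem_ker.1 h1.1.2, D.pc_zero]
  have hq : ∀ x, ∃ q : (Finset V → Y → F) →ₗ[F] (Fin (beta G (rr F B b) (D.U x) ∅ i) → F),
      ∀ z ∈ ZZ G (rr F B b) (D.U x) ∅ i, q z = 0 → z ∈ BB G (rr F B b) (D.U x) ∅ i :=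
    fun x => exists_q (BB_le_ZZ _ _ _ _ _)
  choose q hq using hq
  let ψ : K →ₗ[F] (∀ x : X, Fin (beta G (rr F B b) (D.U x) ∅ i) → F) :=
    LinearMap.pi fun x => (q x).comp ((D.pcx F x ((m + 1 : ℕ) : ZMod N)).comp K.subtype)
  have hcod : finrank F (∀ x : X, Fin (beta G (rr F B b) (D.U x) ∅ i) → F) =
      ∑ x, beta G (rr F B b) (D.U x) ∅ i := by
    rw [finrank_pi_fintype]
    exact Finset.sum_congr rfl fun x _ => by rw [finrank_fintype_fun_eq_card, Fintype.card_fin]
  have hker : ∀ z : K, ψ z = 0 → z.1 ∈ D.Km F b N i (m + 1) ⊔ BB G (pull F (D.aN N b)) Set.univ ∅ i := by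
    intro z hz0
    have hzK := (D.mem_Km).1 z.2
    have h1 : ∀ x, D.pc z.1 x ((m + 1 : ℕ) : ZMod N) ∈ BB G (rr F B b) (D.U x) ∅ i := by
      intro x
      exact hq x _ (hz z x) (congrFun hz0 x)
    obtain ⟨W, hW, h2, h3⟩ := D.kill hb1 hb2 h1N _ h1
    have h4 : bd F W ∈ BB G (pull F (D.aN N b)) Set.univ ∅ i := ⟨W, hW, rfl⟩
    rw [Submodule.mem_sup]
    refine ⟨z.1 - bd F W, ?_, bd F W, h4, by abel⟩
    rw [D.mem_Km]
    refine ⟨Submodule.sub_mem _ hzK.1 (BB_le_ZZ _ _ _ _ _ h4), fun s hs x => ?_⟩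
    rcases Nat.lt_or_ge s (m + 1) with h5 | h5
    · rw [D.pc_sub, hzK.2 s (by omega) x, h3 x s (hne s (m + 1) h5 (by omega)) ?_, sub_self]
      have h6 := hne s (m + 1 + 1) (by omega) (by omega)
      push_cast at h6 ⊢
      exact h6
    · have : s = m + 1 := by omega
      subst this
      exact h2 x
  obtain ⟨T, hT⟩ := Submodule.exists_isCompl (LinearMap.ker ψ)
  refine ⟨T.map K.subtype, ?_, ?_⟩
  · have h1 : finrank F (T.map K.subtype) ≤ finrank F T := Submodule.finrank_map_le _ _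
    have h2 := Submodule.finrank_add_eq_of_isCompl hT
    have h3 := LinearMap.finrank_range_add_finrank_ker ψ
    have h4 := Submodule.finrank_le (LinearMap.range ψ)
    rw [hcod] at h4
    omega
  · intro z hz1
    have h1 : (⟨z, hz1⟩ : K) ∈ LinearMap.ker ψ ⊔ T := by
      rw [hT.sup_eq_top]; trivial
    obtain ⟨k, hk, t, ht, hkt⟩ := Submodule.mem_sup.1 h1
    rw [Submodule.mem_sup]
    refine ⟨k.1, hker k (LinearMap.mem_ker.1 hk), t.1, ⟨t, ht, rfl⟩, ?_⟩
    exact congrArg Subtype.val hkt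

theorem Dir.steps (hb1 : ∀ v y, b v (b v y) = y) (hb2 : ∀ u v, G.Adj u v → ∀ y, b u (b v y) = b v (b u y)) {i : ℕ}
    [Fintype (ZMod N)] : ∀ m : ℕ, m + 2 ≤ N → ∃ R : Submodule F (Finset V → X × ZMod N × Y → F),
      finrank F R ≤ m * ∑ x, beta G (rr F B b) (D.U x) ∅ i ∧
      D.Km F b N i 0 ≤ (D.Km F b N i m ⊔ BB G (pull F (D.aN N b)) Set.univ ∅ i) ⊔ R := by
  intro m
  induction m with
  | zero =>
    intro _
    refine ⟨⊥, by simp, ?_⟩
    exact le_sup_of_le_left le_sup_left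
  | succ m ih =>
    intro hm
    obtain ⟨R, h1, h2⟩ := ih (by omega)
    obtain ⟨T, h3, h4⟩ := D.step (F := F) hb1 hb2 (i := i) m (by omega)
    refine ⟨R ⊔ T, ?_, ?_⟩
    · have h5 := Submodule.finrank_add_le_finrank_add_finrank R T
      have h6 : (m + 1) * ∑ x, beta G (rr F B b) (D.U x) ∅ i =
        m * ∑ x, beta G (rr F B b) (D.U x) ∅ i + ∑ x, beta G (rr F B b) (D.U x) ∅ i := by ring
      omega
    · refine h2.trans (sup_le (sup_le (h4.trans ?_) ?_) ?_)
      · exact sup_le le_sup_left (le_sup_of_le_right le_sup_right)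
      · exact le_sup_of_le_left le_sup_right
      · exact le_sup_of_le_right le_sup_left

/-- the Morse inequality for the cyclic covering -/
theorem Dir.beta_le (hb1 : ∀ v y, b v (b v y) = y) (hb2 : ∀ u v, G.Adj u v → ∀ y, b u (b v y) = b v (b u y))
    (i : ℕ) (hN : 2 ≤ N) [Fintype (ZMod N)] :
    beta G (pull F (D.aN N b)) Set.univ ∅ i ≤ N * ∑ x, beta G (rr F B b) (D.U x) ∅ i +
      2 * (Fintype.card X * (2 ^ Fintype.card V * Fintype.card Y)) := by
  classical
  have hE : finrank F (X → Finset V → Y → F) = Fintype.card X * (2 ^ Fintype.card V * Fintype.card Y) := by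
    rw [finrank_pi_fintype, Finset.sum_const, Finset.card_univ, finrank_pi_fintype, Finset.sum_const,
      Finset.card_univ, finrank_fintype_fun_eq_card, Fintype.card_finset, smul_eq_mul, smul_eq_mul]
  set Z := ZZ G (pull F (D.aN N b)) Set.univ ∅ i with hZ
  set Bd := BB G (pull F (D.aN N b)) Set.univ ∅ i with hB
  obtain ⟨R, hR1, hR2⟩ := D.steps (F := F) hb1 hb2 (i := i) (N := N) (N - 2) (by omega)
  have hN0 : NeZero N := ⟨by omega⟩
  -- the cycles with pieces only at height `-1`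
  have hL2 : finrank F (D.Km F b N i (N - 2)) ≤ finrank F (X → Finset V → Y → F) := by
    refine LinearMap.finrank_le_finrank_of_injective
      (f := (LinearMap.pi fun x => D.pcx F x (-1 : ZMod N)).domRestrict (D.Km F b N i (N - 2))) ?_
    rw [← LinearMap.ker_eq_bot, LinearMap.ker_eq_bot']
    rintro ⟨c, hc⟩ h
    have hc' := (D.mem_Km).1 hc
    refine Subtype.ext ?_
    refine D.eq_zero hc'.1.1 fun x t => ?_
    by_cases ht : t = -1
    · subst ht
      exact congrFun h x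
    · have h3 := hc'.2 t.val (by
        have h4 : t.val < N := ZMod.val_lt t
        by_contra h5
        have h6 : t.val = N - 1 := by omega
        apply ht
        have h7 : ((t.val : ℕ) : ZMod N) = t := ZMod.natCast_zmod_val t
        rw [← h7, h6, Nat.cast_sub (by omega), ZMod.natCast_self]
        simp) x
      rwa [ZMod.natCast_zmod_val] at h3
  have hK : finrank F (LinearMap.ker ((LinearMap.pi fun x => D.pcx F x (0 : ZMod N)).domRestrict Z)) ≤
      finrank F ↥(D.Km F b N i 0) := by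
    have h1 : ∀ c : LinearMap.ker ((LinearMap.pi fun x => D.pcx F x (0 : ZMod N)).domRestrict Z),
        (c.1.1 : Finset V → X × ZMod N × Y → F) ∈ D.Km F b N i 0 := by
      rintro ⟨⟨z, hz⟩, h⟩
      rw [D.mem_Km]
      refine ⟨hz, fun s hs x => ?_⟩
      have : s = 0 := by omega
      subst this
      rw [Nat.cast_zero]
      exact congrFun (LinearMap.mem_ker.1 h) x
    refine LinearMap.finrank_le_finrank_of_injective
      (f := (Z.subtype.comp (LinearMap.ker ((LinearMap.pi fun x => D.pcx F x (0 : ZMod N)).domRestrict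
        Z)).subtype).codRestrict (D.Km F b N i 0) h1) ?_
    intro c d h
    have := congrArg Subtype.val h
    exact Subtype.ext (Subtype.ext this)
  have h2 := LinearMap.finrank_range_add_finrank_ker ((LinearMap.pi fun x => D.pcx F x (0 : ZMod N)).domRestrict Z)
  have h3 : finrank F (LinearMap.range ((LinearMap.pi fun x => D.pcx F x (0 : ZMod N)).domRestrict Z)) ≤
      finrank F (X → Finset V → Y → F) := Submodule.finrank_le _
  have hR3 : D.Km F b N i 0 ≤ (D.Km F b N i (N - 2) ⊔ Bd) ⊔ R := hR2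
  have h4 := Submodule.finrank_mono hR3
  have h5 := Submodule.finrank_add_le_finrank_add_finrank (D.Km F b N i (N - 2) ⊔ Bd) R
  have h6 := Submodule.finrank_add_le_finrank_add_finrank (D.Km F b N i (N - 2)) Bd
  have h7 : (N - 2) * ∑ x, beta G (rr F B b) (D.U x) ∅ i ≤ N * ∑ x, beta G (rr F B b) (D.U x) ∅ i :=
    Nat.mul_le_mul_right _ (Nat.sub_le _ _)
  show finrank F Z - finrank F Bd ≤ _
  rw [← hE]
  omega

end

end Pool.Agent.R703.MO
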