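import Pool.Agent.R703.MO.ClassDef
import Pool.Agent.R703.MO.SlopeC
import Pool.Agent.R782.Bal.Class

/-!
# `ℓ²`-vanishing for the class `MQ`
-/

set_option autoImplicit false
set_option linter.unusedSectionVars false

namespace Pool.Agent.R703.MO

open Pool.Agent.W907.SG Pool.Agent.W907.SM
open Pool.Agent.TH652.Join (join ljoin)
open Pool.Agent.TH652.Glue (lglue)
open Pool.Agent.TH652.Above (Q HSph lv_img lv_set lv_sub lv_univ lv_add lv_cone Q_emb Q_join Q_del Q_loc Q_vert Q_glue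
  singer_of_above)
open Pool.Agent.R781.VS (AR con NoSq l2split l2vdel)
open Pool.Agent.R782.Bal (Q_of_BR lv_susp lv_relsub)

/-- The Morse criterion in one degree. -/
theorem morse_family {V : Type} [Fintype V] [LinearOrder V] (G : SimpleGraph V) (B : Set V) {X : Type} [Finite X]
    [Nonempty X] (D : Dir G B X) (i : ℕ) (R : ℕ → Set V → Prop) (h1 : ∀ x, R i (D.U x))
    (h2 : ∀ k A, R k A → (∃ v ∈ A, v ∉ B) → Cone G B A ∨ ((∀ v ∈ A, v ∉ B) ∧ HomZero G A k) ∨
      ∃ v ∈ A, v ∉ B ∧ R k (A \ {v}) ∧ ∀ j, k = j + 1 → R j ((A \ {v}) ∩ G.neighborSet v))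
    (h3 : ∀ k A, R k A → A ⊆ B → ∀ [Fintype A], L2Van (G.induce A) k) : L2Van G i := by
  classical
  have : Fintype X := Fintype.ofFinite X
  refine morse D i fun x => ?_
  have key : ∀ (n : ℕ) (k : ℕ) (A : Set V), (A \ B).ncard = n → R k A → Sm G B A k := by
    intro n
    induction n using Nat.strong_induction_on with
    | _ n ih =>
    intro k A hn hR
    by_cases hA : A ⊆ B
    · have : Fintype A := Fintype.ofFinite A
      exact Sm.of_l2 hA (h3 k A hR hA)
    · obtain ⟨w, hw⟩ := Set.not_subset.1 hA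
      rcases h2 k A hR ⟨w, hw⟩ with ⟨u, hu, huB, hadj⟩ | ⟨hp, hz⟩ | ⟨v, hv, hvB, hR1, hR2⟩
      · exact Sm.of_zero fun Y _ b => beta_cone hu hadj (fun m => rr_neg huB m) k
      · exact Sm.of_zero fun Y _ b => beta_passive b hp k hz
      · have hA2 : A = insert v (A \ {v}) := by
          rw [Set.insert_sdiff_singleton, Set.insert_eq_of_mem hv]
        rw [hA2]
        have hlt : ∀ A' : Set V, A' ⊆ A \ {v} → (A' \ B).ncard < n := by
          intro A' hA'
          rw [← hn]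
          refine Set.ncard_lt_ncard ?_ (Set.toFinite _)
          refine ⟨fun a ha => ⟨(hA' ha.1).1, ha.2⟩, fun h => ?_⟩
          exact (hA' (h ⟨hv, hvB⟩).1).2 rfl
        refine Sm.vert hvB (by simp) ?_ fun j hj => ?_
        · exact ih _ (hlt _ (Set.Subset.refl _)) k _ rfl hR1
        · exact ih _ (hlt _ Set.inter_subset_left) j _ rfl (hR2 j hj)
  exact key _ i _ rfl (h1 x)

/-- the motive -/
def VB (b : ℕ) {V : Type} (G : SimpleGraph V) : Prop := Finite V ∧ ∀ i, b ≤ i → LV G i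

theorem VB_of_MQ {b : ℕ} {V : Type} {G : SimpleGraph V} (h : MQ b G) : VB b G := by
  classical
  induction h with
  | @br n V G h =>
    have h1 := Q_of_BR h
    exact ⟨h1.1, fun i hi => (lv_univ G i).1 (h1.2 Set.univ i (by omega))⟩
  | @morse b V _ _ G B X _ _ D R h1 h2 _ ih =>
    refine ⟨inferInstance, fun i hi => lv_of ?_⟩
    refine morse_family G B D i (fun k A => ∃ k', R k' A ∧ k' ≤ k) (fun x => ⟨b, h1 x, hi⟩) ?_ ?_
    · rintro k A ⟨k', hR, hk⟩ hv
      rcases h2 k' A hR hv with h | ⟨h, h'⟩ | ⟨v, hv, hvB, h, h'⟩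
      · exact Or.inl h
      · exact Or.inr (Or.inl ⟨h, h' k hk⟩)
      · exact Or.inr (Or.inr ⟨v, hv, hvB, ⟨k', h, hk⟩, fun j hj => ⟨k' - 1, h', by omega⟩⟩)
    · rintro k A ⟨k', hR, hk⟩ hA _
      exact (ih k' A hR hA).2 k hk _ _
  | @slope b V _ _ G X _ _ D h =>
    exact ⟨inferInstance, fun i hi => lv_of (morse_slope G D i fun x S hS h0 j hj => h x S hS h0 j (by omega))⟩
  | susp G => exact ⟨inferInstance, fun i _ => lv_susp G i⟩
  | @sph m V _ _ G hS _ ih =>
    refine ⟨ih.1, fun i _ => ?_⟩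
    exact lv_of (singer_of_above hS (fun i hi => ih.2 i (by omega) _ _) i (by omega))
  | @eul m V _ _ G hS _ hχ ih =>
    refine ⟨ih.1, fun i _ => ?_⟩
    have h1 : ∀ i, i ≠ m → L2Van G i := fun i hi =>
      singer_of_above hS (fun i hi => ih.2 i (by omega) _ _) i (by omega)
    exact lv_of ((l2eul V G m h1).2 hχ i)
  | up G _ ih => exact ⟨ih.1, fun i hi => ih.2 i (by omega)⟩
  | @sub b V _ G O lo h h1 h2 _ _ ih1 ih2 =>
    exact ⟨inferInstance, lv_relsub G O lo h b h1 h2 (fun x hx i => (ih1 x hx).2 i (Nat.zero_le _)) ih2.2⟩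
  | vert G v _ _ ih1 ih2 =>
    exact ⟨inferInstance, fun i hi => lstep1 _ G v i (ih1.2 i hi) fun j hj => ih2.2 j (by omega)⟩
  | @vdel b V _ G v _ _ ih1 ih2 =>
    refine ⟨inferInstance, fun i hi _ _ => ?_⟩
    have : Fintype V := Fintype.ofFinite V
    have e1 : LinearOrder V := IsWellOrder.linearOrder WellOrderingRel
    have h5 := l2vdel V G v i (ih1.2 i hi _ _) (ih2.2 i hi _ _)
    exact ord _ _ _ _ _ _ _ _ i ⟨SimpleGraph.Iso.refl⟩ h5
  | del G s t hst _ _ ih1 ih2 =>
    exact ⟨inferInstance, fun i hi => lstep2 _ G s t i hst (ih1.2 i hi) fun j hj => ih2.2 j (by omega)⟩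
  | split G s t hst hsq _ _ ih1 ih2 =>
    refine ⟨inferInstance, fun i hi _ _ => ?_⟩
    exact l2split _ G s t i hst hsq (ih1.2 i hi _ _) fun j hj => ih2.2 j (by omega) _ _
  | glue G A B hAB hno _ _ _ ih1 ih2 ih3 =>
    exact ⟨inferInstance, fun i hi => lglue G A B hAB hno i (ih1.2 i hi) (ih2.2 i hi) fun j hj =>
      ih3.2 j (by omega)⟩
  | @join a b V U G H _ _ ih1 ih2 =>
    have := ih1.1
    have := ih2.1
    refine ⟨inferInstance, fun i hi => ljoin G H i fun p q hpq => ?_⟩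
    rcases le_or_gt a p with h | h
    · exact Or.inl (ih1.2 p h)
    · exact Or.inr (ih2.2 q (by omega))
  | @iso b V U G H e _ ih =>
    have hV : Finite V := ih.1
    exact ⟨Finite.of_equiv V e.some.toEquiv, fun i hi => liso _ _ _ _ i e (ih.2 i hi)⟩

/-- vanishing in the degrees `≥ b` for the class `MQ b` -/
theorem above_MQ {b : ℕ} {V : Type} [Fintype V] [LinearOrder V] {G : SimpleGraph V} (h : MQ b G) (i : ℕ)
    (hi : b ≤ i) : L2Van G i := (VB_of_MQ h).2 i hi _ _

/-- the Singer conjecture for homology spheres in the class -/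
theorem singer_MQ {n : ℕ} {V : Type} [Fintype V] [LinearOrder V] {G : SimpleGraph V} (hS : HSph n G)
    (h : MQ (n / 2 + 1) G) (i : ℕ) (hi : 2 * i ≠ n) : L2Van G i :=
  singer_of_above hS (fun i hi => above_MQ h i (by omega)) i hi

/-- the Charney-Davis inequality -/
theorem charney_davis_MQ {m : ℕ} {V : Type} [Fintype V] [LinearOrder V] {G : SimpleGraph V} (hS : HSph (2 * m) G)
    (h : MQ (m + 1) G) : 0 ≤ (-1 : ℚ) ^ m * chiW G :=
  Pool.Agent.TH652.Above.chi_sign G fun i hi => singer_of_above hS (fun i hi => above_MQ h i (by omega)) i (by omega)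

end Pool.Agent.R703.MO
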