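import Pool.Agent.W907.SG.Defs

/-!
# Morse theory for right-angled Coxeter groups: definitions
-/

set_option autoImplicit false

namespace Pool.Agent.R703.MO

open Pool.Agent.W907.SG

/-- A direction system relative to the set `B` of horizontal vertices on the set `X`: the generator `v` acts by the
involution `a v`, the vertices of `B` act trivially, and for `v ∉ B` the edge from `x` to `a v x` goes up or down
(and its inverse goes down or up); opposite edges of squares go in the same direction. -/
structure Dir {V : Type} (G : SimpleGraph V) (B : Set V) (X : Type) where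
  a : V → X → X
  up : V → X → Bool
  inv : ∀ v x, a v (a v x) = x
  comm : ∀ u v, G.Adj u v → ∀ x, a u (a v x) = a v (a u x)
  fix : ∀ v ∈ B, ∀ x, a v x = x
  flip : ∀ v ∉ B, ∀ x, up v (a v x) = !(up v x)
  par : ∀ u ∉ B, ∀ v, G.Adj u v → ∀ x, up u (a v x) = up u x

/-- the set of the horizontal and the ascending directions -/
def Dir.U {V X : Type} {G : SimpleGraph V} {B : Set V} (D : Dir G B X) (x : X) : Set V :=
  {v | v ∈ B ∨ D.up v x = true}

/-- A system of slopes on the `W_G`-set `X`: the generator `v` acts by the involution `a v`, the edge from `x` to
`a v x` has the slope `dir v x`, the opposite edge has the negative slope, and opposite edges of squares have the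
same slope. -/
structure Slope {V : Type} (G : SimpleGraph V) (X : Type) where
  a : V → X → X
  dir : V → X → ℤ
  inv : ∀ v x, a v (a v x) = x
  comm : ∀ u v, G.Adj u v → ∀ x, a u (a v x) = a v (a u x)
  odd : ∀ v x, dir v (a v x) = - dir v x
  par : ∀ u v, G.Adj u v → ∀ x, dir u (a v x) = dir u x

/-- the ascending directions at `x` adjacent to all the elements of `S` -/
def Slope.Asc {V X : Type} {G : SimpleGraph V} (D : Slope G X) (S : Finset V) (x : X) : Set V :=
  {v | 0 < D.dir v x ∧ ∀ s ∈ S, G.Adj s v}

/-- the representation of the reduced chain complex: all generators act by `-1` -/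
def neg (F V : Type) [Field F] : V → F →ₗ[F] F := fun _ => -LinearMap.id

/-- a vertex of `A` which is not in `B` and is adjacent to all the other vertices of `A` -/
def Cone {V : Type} (G : SimpleGraph V) (B A : Set V) : Prop :=
  ∃ u ∈ A, u ∉ B ∧ ∀ w ∈ A, w ≠ u → G.Adj u w

/-- The reduced real homology of the flag complex of the full subgraph on `A` vanishes in the degree `i - 1`
(`beta G (neg ℝ V) A ∅ i` is the dimension of the homology of the augmented simplicial chain complex over the cliques
with `i` elements contained in `A`). -/
def HomZero {V : Type} [Fintype V] [LinearOrder V] (G : SimpleGraph V) (A : Set V) (i : ℕ) : Prop :=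
  beta G (neg ℝ V) A ∅ i = 0

end Pool.Agent.R703.MO
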