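import Pool.Agent.R703.MO.Main
import Pool.Agent.R703.CW.Link
import Pool.Agent.R782.Bal.Gam

/-!
# The top coefficient of the `γ`-vector of even-dimensional flag spheres
-/

set_option autoImplicit false

namespace Pool.Agent.R703.MO

open Finset Pool.Agent.W907.SG Pool.Agent.W907.SM Pool.Agent.W497.FS Pool.Agent.R781.CubeAQ
open Pool.Agent.TH652.Above (HSph)

/-- the sum of `|σ| (-1/2)^(|σ| - 1)` -/
def omega1 {V : Type} (S : Finset (Finset V)) : ℚ := ∑ σ ∈ S, (σ.card : ℚ) * (-1 / 2) ^ (σ.card - 1)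

theorem sum_card {V : Type} {d : ℕ} {S : Finset (Finset V)} (hc : ∀ σ ∈ S, σ.card ≤ d) (g : ℕ → ℚ) :
    ∑ j ∈ Finset.range (d + 1), ((S.filter (fun G => G.card = j)).card : ℚ) * g j = ∑ σ ∈ S, g σ.card := by
  rw [← Finset.sum_fiberwise_of_maps_to (s := S) (t := Finset.range (d + 1)) (g := fun σ => σ.card)
      (fun σ hσ => Finset.mem_range.mpr (by have := hc σ hσ; omega))]
  refine Finset.sum_congr rfl fun j _ => ?_
  rw [Finset.sum_congr rfl (g := fun _ => g j)
    (fun σ hσ => by rw [(Finset.mem_filter.mp hσ).2]), Finset.sum_const, nsmul_eq_mul]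

theorem gamma_top_odd {m N : ℕ} {S : Finset (Finset (Fin N))} (hc : ∀ σ ∈ S, σ.card ≤ 2 * m + 1) {γ : ℕ → ℤ}
    (hγ : IsGamma (2 * m + 1) S γ) : 2 * (γ m : ℚ) = (-1) ^ m * (4 ^ m * omega1 S) := by
  obtain ⟨d, hd⟩ : ∃ d : ℕ, d = 2 * m + 1 := ⟨_, rfl⟩
  rw [← hd] at hc hγ
  have hd2 : d / 2 = m := by omega
  unfold IsGamma at hγ
  have h0 := congrArg (Polynomial.eval (-1 : ℤ)) hγ
  have h1 := congrArg (fun p => Polynomial.eval (-1 : ℤ) (Polynomial.derivative p)) hγ
  simp only [Polynomial.derivative_sum] at h1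
  rw [Polynomial.eval_finsetSum, Polynomial.eval_finsetSum] at h0 h1
  have h2 : ∑ i ∈ Finset.range (d / 2 + 1), Polynomial.eval (-1 : ℤ)
      (Polynomial.C (γ i) * Polynomial.X ^ i * (1 + Polynomial.X) ^ (d - 2 * i)) = 0 := by
    refine Finset.sum_eq_zero fun i hi => ?_
    rw [Finset.mem_range] at hi
    simp only [Polynomial.eval_mul, Polynomial.eval_C, Polynomial.eval_pow, Polynomial.eval_X,
      Polynomial.eval_add, Polynomial.eval_one]
    rw [show (1 : ℤ) + -1 = 0 by ring, zero_pow (by omega), mul_zero]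
  have h3 : ∑ i ∈ Finset.range (d / 2 + 1), Polynomial.eval (-1 : ℤ) (Polynomial.derivative
      (Polynomial.C (γ i) * Polynomial.X ^ i * (1 + Polynomial.X) ^ (d - 2 * i))) = γ m * (-1) ^ m := by
    rw [Finset.sum_eq_single m]
    · rw [show d - 2 * m = 1 by omega, pow_one]
      simp
    · intro i hi him
      rw [Finset.mem_range] at hi
      obtain ⟨e, he⟩ : ∃ e : ℕ, d - 2 * i = e + 2 := ⟨d - 2 * i - 2, by omega⟩
      rw [he]
      simp [Polynomial.derivative_mul, Polynomial.derivative_pow]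
    · intro h
      exact absurd (Finset.mem_range.mpr (by omega)) h
  rw [h2] at h0
  rw [h3] at h1
  have h4 : ∀ j ∈ Finset.range (d + 1), Polynomial.eval (-1 : ℤ)
      (Polynomial.C (((S.filter (fun G => G.card = j)).card : ℕ) : ℤ)
        * Polynomial.X ^ j * (1 - Polynomial.X) ^ (d - j)) =
      ((S.filter (fun G => G.card = j)).card : ℤ) * ((-1) ^ j * 2 ^ (d - j)) := by
    intro j _
    simp only [Polynomial.eval_mul, Polynomial.eval_C, Polynomial.eval_pow, Polynomial.eval_X,
        Polynomial.eval_sub, Polynomial.eval_one]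
    norm_num
    ring
  have h5 : ∀ j ∈ Finset.range (d + 1), 2 * Polynomial.eval (-1 : ℤ) (Polynomial.derivative
      (Polynomial.C (((S.filter (fun G => G.card = j)).card : ℕ) : ℤ)
        * Polynomial.X ^ j * (1 - Polynomial.X) ^ (d - j))) =
      ((S.filter (fun G => G.card = j)).card : ℤ) * (-((d : ℤ) + j) * ((-1) ^ j * 2 ^ (d - j))) := by
    intro j hj
    rw [Finset.mem_range] at hj
    obtain ⟨k, hk⟩ : ∃ k : ℕ, d = j + k := ⟨d - j, by omega⟩
    rw [show d - j = k by omega, hk]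
    generalize (S.filter (fun G => G.card = j)).card = a
    have e1 : (2 : ℤ) * ((k : ℤ) * 2 ^ (k - 1)) = k * 2 ^ k := by
      cases k with
      | zero => simp
      | succ k => rw [Nat.add_sub_cancel, pow_succ]; ring
    have e2 : (j : ℤ) * (-1) ^ (j - 1) = - (j * (-1) ^ j) := by
      cases j with
      | zero => simp
      | succ j => rw [Nat.add_sub_cancel, pow_succ]; ring
    have e3 : Polynomial.eval (-1 : ℤ) (Polynomial.derivative
      (Polynomial.C ((a : ℕ) : ℤ) * Polynomial.X ^ j * (1 - Polynomial.X) ^ k)) =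
      (a : ℤ) * ((j : ℤ) * (-1) ^ (j - 1)) * 2 ^ k - (a : ℤ) * (-1) ^ j * (k * 2 ^ (k - 1)) := by
      simp only [Polynomial.derivative_mul, Polynomial.derivative_pow, Polynomial.derivative_C,
        Polynomial.derivative_X, Polynomial.derivative_sub, Polynomial.derivative_one, Polynomial.eval_add,
        Polynomial.eval_mul, Polynomial.eval_C, Polynomial.eval_pow, Polynomial.eval_X,
        Polynomial.eval_sub, Polynomial.eval_one, Polynomial.eval_zero]
      norm_num
      ring
    rw [e3, mul_sub]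
    rw [e2]
    have e4 : (2 : ℤ) * ((a : ℤ) * (-1) ^ j * (k * 2 ^ (k - 1))) = (a : ℤ) * (-1) ^ j * (k * 2 ^ k) := by
      rw [← e1]; ring
    rw [e4]
    push_cast
    ring
  rw [Finset.sum_congr rfl h4] at h0
  have h6 : 2 * (γ m * (-1) ^ m : ℤ) = ∑ j ∈ Finset.range (d + 1),
      ((S.filter (fun G => G.card = j)).card : ℤ) * (-((d : ℤ) + j) * ((-1) ^ j * 2 ^ (d - j))) := by
    rw [← h1, Finset.mul_sum]
    exact Finset.sum_congr rfl h5
  have h7 : 2 * (γ m * (-1) ^ m : ℤ) = ∑ j ∈ Finset.range (d + 1),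
      ((S.filter (fun G => G.card = j)).card : ℤ) * (-(j : ℤ) * ((-1) ^ j * 2 ^ (d - j))) := by
    rw [h6]
    have e1 : ∀ j ∈ Finset.range (d + 1),
        ((S.filter (fun G => G.card = j)).card : ℤ) * (-((d : ℤ) + j) * ((-1) ^ j * 2 ^ (d - j))) =
        -(d : ℤ) * (((S.filter (fun G => G.card = j)).card : ℤ) * ((-1) ^ j * 2 ^ (d - j))) +
        ((S.filter (fun G => G.card = j)).card : ℤ) * (-(j : ℤ) * ((-1) ^ j * 2 ^ (d - j))) := by
      intro j _; ring
    rw [Finset.sum_congr rfl e1, Finset.sum_add_distrib, ← Finset.mul_sum, h0]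
    ring
  have h8 : (2 * (γ m * (-1) ^ m) : ℚ) = ∑ j ∈ Finset.range (d + 1),
      ((S.filter (fun G => G.card = j)).card : ℚ) * (4 ^ m * ((j : ℚ) * (-1 / 2) ^ (j - 1))) := by
    have e0 := congrArg (fun z : ℤ => (z : ℚ)) h7
    push_cast at e0
    rw [e0]
    refine Finset.sum_congr rfl fun j hj => ?_
    rw [Finset.mem_range] at hj
    congr 1
    cases j with
    | zero => simp
    | succ j =>
      rw [Nat.add_sub_cancel]
      obtain ⟨k, hk⟩ : ∃ k : ℕ, 2 * m = j + k := ⟨2 * m - j, by omega⟩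
      have e1 : (4 : ℚ) ^ m = 2 ^ j * 2 ^ k := by
        rw [← pow_add, ← hk, pow_mul]; norm_num
      rw [show d - (j + 1) = k by omega, e1, div_pow, pow_succ]
      field_simp
  rw [sum_card hc (fun j => (4 : ℚ) ^ m * ((j : ℚ) * (-1 / 2) ^ (j - 1))), ← Finset.mul_sum] at h8
  have h9 : ((-1 : ℚ) ^ m) * (-1) ^ m = 1 := by
    rw [← mul_pow]; norm_num
  calc 2 * (γ m : ℚ) = (-1 : ℚ) ^ m * (2 * (γ m * (-1) ^ m)) := by
        rw [show (-1 : ℚ) ^ m * (2 * (γ m * (-1) ^ m)) = 2 * γ m * ((-1 : ℚ) ^ m * (-1) ^ m) by ring, h9, mul_one]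
    _ = (-1) ^ m * (4 ^ m * omega1 S) := by rw [h8]; rfl

open Classical in
theorem omega1_fam {V : Type} [Fintype V] [LinearOrder V] {n : ℕ} (φ : V ≃ Fin n) (G : SimpleGraph V) :
    omega1 (fam φ G) = omega1 (Finset.univ.filter fun T : Finset V => G.IsClique (T : Set V)) := by
  unfold omega1
  symm
  refine Finset.sum_bij (fun F _ => F.map φ.toEmbedding) ?_ ?_ ?_ ?_
  · intro F hF
    rw [mem_fam]
    have h1 : (F.map φ.toEmbedding).map φ.symm.toEmbedding = F := by
      ext v
      simp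
    rw [h1]
    exact (Finset.mem_filter.1 hF).2
  · intro F _ F' _ h
    exact Finset.map_injective _ h
  · intro F hF
    refine ⟨F.map φ.symm.toEmbedding, Finset.mem_filter.2 ⟨Finset.mem_univ _, (mem_fam φ G F).1 hF⟩, ?_⟩
    ext v
    simp
  · intro F _
    rw [Finset.card_map]

open Classical in
/-- the sum of the Charney-Davis quantities of the vertex links -/
theorem omega1_links {V : Type} [Fintype V] [LinearOrder V] (G : SimpleGraph V) :
    omega1 (Finset.univ.filter fun T : Finset V => G.IsClique (T : Set V)) =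
      ∑ v : V, chiW (G.induce (Pool.Agent.W907.SM.lk G {v})) := by
  have h1 : ∀ v : V, chiW (G.induce (Pool.Agent.W907.SM.lk G {v})) =
      ∑ σ ∈ (Finset.univ.filter fun T : Finset V => G.IsClique (T : Set V)).filter (fun σ => v ∈ σ),
        (-1 / 2 : ℚ) ^ (σ.card - 1) := by
    intro v
    rw [Pool.Agent.R703.CW.chi_filter]
    refine Finset.sum_bij (fun S _ => insert v (S.map (Function.Embedding.subtype _))) ?_ ?_ ?_ ?_
    · intro S hS
      have hS' := (Finset.mem_filter.1 hS).2
      refine Finset.mem_filter.2 ⟨Finset.mem_filter.2 ⟨Finset.mem_univ _, ?_⟩, Finset.mem_insert_self _ _⟩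
      intro a ha b hb hab
      rw [Finset.mem_coe, Finset.mem_insert, Finset.mem_map] at ha hb
      rcases ha with rfl | ⟨a', ha', rfl⟩ <;> rcases hb with rfl | ⟨b', hb', rfl⟩
      · exact absurd rfl hab
      · exact (b'.2 _ (Finset.mem_singleton_self _)).symm
      · exact a'.2 _ (Finset.mem_singleton_self _)
      · exact hS' ha' hb' fun h => hab (congrArg Subtype.val h)
    · intro S _ S' _ h
      have hv : ∀ S : Finset ↥(Pool.Agent.W907.SM.lk G {v}), v ∉ S.map (Function.Embedding.subtype _) := by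
        intro S hv
        obtain ⟨a, -, ha⟩ := Finset.mem_map.1 hv
        exact (a.2 v (Finset.mem_singleton_self _)).ne ha
      have h2 := congrArg (fun F : Finset V => F.erase v) h
      simp only [Finset.erase_insert (hv S), Finset.erase_insert (hv S')] at h2
      exact Finset.map_injective _ h2
    · intro σ hσ
      obtain ⟨h1, h2⟩ := Finset.mem_filter.1 hσ
      have h1 := (Finset.mem_filter.1 h1).2
      have h3 : ∀ x ∈ σ.erase v, x ∈ Pool.Agent.W907.SM.lk G {v} := by
        intro x hx u hu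
        rw [Finset.mem_singleton] at hu
        subst hu
        exact h1 (Finset.mem_of_mem_erase hx) h2 (Finset.ne_of_mem_erase hx)
      refine ⟨(σ.erase v).subtype (fun x => x ∈ Pool.Agent.W907.SM.lk G {v}), Finset.mem_filter.2
        ⟨Finset.mem_univ _, ?_⟩, ?_⟩
      · intro a ha b hb hab
        rw [Finset.mem_coe, Finset.mem_subtype] at ha hb
        exact h1 (Finset.mem_of_mem_erase ha) (Finset.mem_of_mem_erase hb) fun h => hab (Subtype.ext h)
      · rw [Finset.subtype_map, Finset.filter_true_of_mem h3, Finset.insert_erase h2]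
    · intro S _
      rw [Finset.card_insert_of_notMem, Finset.card_map, Nat.add_sub_cancel]
      intro hv
      obtain ⟨a, -, ha⟩ := Finset.mem_map.1 hv
      exact (a.2 v (Finset.mem_singleton_self _)).ne ha
  rw [Finset.sum_congr rfl fun v _ => h1 v]
  unfold omega1
  have h2 : ∀ σ ∈ Finset.univ.filter (fun T : Finset V => G.IsClique (T : Set V)),
      (σ.card : ℚ) * (-1 / 2) ^ (σ.card - 1) = ∑ v : V, if v ∈ σ then (-1 / 2 : ℚ) ^ (σ.card - 1) else 0 := by
    intro σ _
    rw [← Finset.sum_filter, Finset.sum_const, nsmul_eq_mul, Finset.filter_mem_eq_inter, Finset.univ_inter]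
  rw [Finset.sum_congr rfl h2, Finset.sum_comm]
  exact Finset.sum_congr rfl fun v _ => (Finset.sum_filter (fun σ : Finset V => v ∈ σ) _).symm

open Classical in
/-- nonnegativity of the top coefficient for the spheres of even dimension -/
theorem gamma_top_odd_nonneg {m : ℕ} {V : Type} [Fintype V] [LinearOrder V] {G : SimpleGraph V}
    (hS : HSph (2 * m + 1) G)
    (hχ : ∀ v : V, 0 ≤ (-1 : ℚ) ^ m * chiW (G.induce (Pool.Agent.W907.SM.lk G {v}))) {n : ℕ} (φ : V ≃ Fin n)
    {γ : ℕ → ℤ} (hγ : IsGamma (2 * m + 1) (fam φ G) γ) : 0 ≤ γ m := by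
  have h1 := gamma_top_odd (fun σ hσ => by
    have h2 := Pool.Agent.R782.Bal.HSph_card hS ((mem_fam φ G σ).1 hσ)
    rwa [Finset.card_map] at h2) hγ
  rw [omega1_fam, omega1_links] at h1
  have h2 : (0 : ℚ) ≤ 2 * γ m := by
    rw [h1, show (-1 : ℚ) ^ m * (4 ^ m * ∑ v : V, chiW (G.induce (Pool.Agent.W907.SM.lk G {v}))) =
      4 ^ m * ∑ v : V, (-1 : ℚ) ^ m * chiW (G.induce (Pool.Agent.W907.SM.lk G {v})) by
        rw [← Finset.mul_sum]; ring]
    exact mul_nonneg (by positivity) (Finset.sum_nonneg fun v _ => hχ v)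
  have h3 : (0 : ℚ) ≤ γ m := by linarith
  exact_mod_cast h3

end Pool.Agent.R703.MO
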