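import Pool.Agent.R703.MO.Small

/-!
# Morse theory with flat directions: pieces of chains
-/

set_option autoImplicit false
set_option linter.unusedSectionVars false

namespace Pool.Agent.R703.MO

open Pool.Agent.W907.SG Classical

section
variable {V X : Type} {G : SimpleGraph V}

/-- the action on the cyclic covering -/
def Slope.aN (D : Slope G X) (N : ℕ) (v : V) (z : X × ZMod N) : X × ZMod N :=
  (D.a v z.1, z.2 + ((D.dir v z.1).sign : ZMod N))

/-- the product with a `W_G`-set -/
def Slope.prod (D : Slope G X) {Y : Type} (b : V → Y → Y) (hb1 : ∀ v y, b v (b v y) = y)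
    (hb2 : ∀ u v, G.Adj u v → ∀ y, b u (b v y) = b v (b u y)) : Slope G (X × Y) where
  a v z := (D.a v z.1, b v z.2)
  dir v z := D.dir v z.1
  inv v z := by rw [D.inv, hb1]
  comm u v h z := by rw [D.comm u v h, hb2 u v h]
  odd v z := D.odd v z.1
  par u v h z := D.par u v h z.1

/-- `T` contains no descending direction at `x` -/
def Slope.Good (D : Slope G X) (T : Finset V) (x : X) : Prop := ∀ v ∈ T, 0 ≤ D.dir v x

end

section
variable {F : Type} [Field F] {V : Type} [Fintype V] [LinearOrder V] {X : Type} {G : SimpleGraph V}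
  (D : Slope G X) {N : ℕ}

theorem Slope.aN_inv (v : V) (z : X × ZMod N) : D.aN N v (D.aN N v z) = z := by
  obtain ⟨x, t⟩ := z
  unfold Slope.aN
  refine Prod.ext (D.inv v x) ?_
  show t + ((D.dir v x).sign : ZMod N) + ((D.dir v (D.a v x)).sign : ZMod N) = t
  rw [D.odd, Int.sign_neg]
  push_cast
  ring

theorem Slope.aN_comm (u v : V) (h : G.Adj u v) (z : X × ZMod N) :
    D.aN N u (D.aN N v z) = D.aN N v (D.aN N u z) := by
  obtain ⟨x, t⟩ := z
  unfold Slope.aN
  refine Prod.ext (D.comm u v h x) ?_
  show t + ((D.dir v x).sign : ZMod N) + ((D.dir u (D.a v x)).sign : ZMod N) =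
    t + ((D.dir u x).sign : ZMod N) + ((D.dir v (D.a u x)).sign : ZMod N)
  rw [D.par u v h, D.par v u h.symm]
  ring

/-- chains of the complex of pieces -/
structure Slope.InP (D : Slope G X) (c : Finset V → X → F) (i : ℕ) : Prop where
  supp : ∀ (T : Finset V) (x : X), ¬ (G.IsClique (T : Set V) ∧ T.card = i ∧ D.Good T x) → c T x = 0
  anti : ∀ (T : Finset V) (x : X), ∀ v ∈ T, D.dir v x = 0 → c T (D.a v x) = - c T x

theorem Slope.InP.bd {c : Finset V → X → F} {i : ℕ} (h : D.InP c (i + 1)) : D.InP (bd F c) i := by
  refine ⟨fun T x hT => ?_, fun T x v hv h0 => ?_⟩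
  · rw [bd_apply, Finset.sum_apply]
    refine Finset.sum_eq_zero fun u hu => ?_
    rw [Finset.mem_compl] at hu
    show sg u T • c (insert u T) x = 0
    rw [h.supp, smul_zero]
    rintro ⟨h1, h2, h3⟩
    apply hT
    rw [Finset.card_insert_of_notMem hu] at h2
    exact ⟨h1.subset (by simp), by omega, fun v hv => h3 v (Finset.mem_insert_of_mem hv)⟩
  · rw [bd_apply, Finset.sum_apply, Finset.sum_apply, ← Finset.sum_neg_distrib]
    refine Finset.sum_congr rfl fun u _ => ?_
    show sg u T • c (insert u T) (D.a v x) = - (sg u T • c (insert u T) x)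
    rw [h.anti (insert u T) x v (Finset.mem_insert_of_mem hv) h0, smul_neg]

theorem Slope.InP.sub {c d : Finset V → X → F} {i : ℕ} (h : D.InP c i) (h' : D.InP d i) : D.InP (c - d) i :=
  ⟨fun T x hT => by show c T x - d T x = 0; rw [h.supp T x hT, h'.supp T x hT, sub_zero],
    fun T x v hv h0 => by
      show c T (D.a v x) - d T (D.a v x) = - (c T x - d T x)
      rw [h.anti T x v hv h0, h'.anti T x v hv h0]; ring⟩

theorem Slope.InP.add {c d : Finset V → X → F} {i : ℕ} (h : D.InP c i) (h' : D.InP d i) : D.InP (c + d) i :=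
  ⟨fun T x hT => by show c T x + d T x = 0; rw [h.supp T x hT, h'.supp T x hT, add_zero],
    fun T x v hv h0 => by
      show c T (D.a v x) + d T (D.a v x) = - (c T x + d T x)
      rw [h.anti T x v hv h0, h'.anti T x v hv h0]; ring⟩

theorem Slope.InP.zero {i : ℕ} : D.InP (0 : Finset V → X → F) i :=
  ⟨fun _ _ _ => rfl, fun _ _ _ _ _ => by show (0 : F) = -0; rw [neg_zero]⟩

/-- the part of a chain which belongs to the cubes with bottom height `t` -/
noncomputable def Slope.pc (D : Slope G X) (c : Finset V → X × ZMod N → F) (t : ZMod N) :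
    Finset V → X → F := fun T x => if D.Good T x then c T (x, t) else 0

theorem Slope.pc_pos {c : Finset V → X × ZMod N → F} {x : X} {t : ZMod N} {T : Finset V} (h : D.Good T x) :
    D.pc c t T x = c T (x, t) := if_pos h

theorem Slope.pc_neg {c : Finset V → X × ZMod N → F} {x : X} {t : ZMod N} {T : Finset V} (h : ¬ D.Good T x) :
    D.pc c t T x = 0 := if_neg h

theorem Slope.pc_zero (t : ZMod N) : D.pc (0 : Finset V → X × ZMod N → F) t = 0 := by
  funext T x
  unfold Slope.pc
  split_ifs <;> rfl

theorem Slope.pc_sub (c c' : Finset V → X × ZMod N → F) (t : ZMod N) :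
    D.pc (c - c') t = D.pc c t - D.pc c' t := by
  funext T x
  show D.pc (c - c') t T x = D.pc c t T x - D.pc c' t T x
  unfold Slope.pc
  split_ifs
  · rfl
  · simp

theorem Slope.pc_add (c c' : Finset V → X × ZMod N → F) (t : ZMod N) :
    D.pc (c + c') t = D.pc c t + D.pc c' t := by
  funext T x
  show D.pc (c + c') t T x = D.pc c t T x + D.pc c' t T x
  unfold Slope.pc
  split_ifs
  · rfl
  · simp

theorem Slope.pc_smul (k : F) (c : Finset V → X × ZMod N → F) (t : ZMod N) :
    D.pc (k • c) t = k • D.pc c t := by
  funext T x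
  show D.pc (k • c) t T x = k • D.pc c t T x
  unfold Slope.pc
  split_ifs
  · rfl
  · simp

/-- anti-invariance -/
theorem Slope.anti {c : Finset V → X × ZMod N → F} {i : ℕ} (hc : c ∈ KK G (pull F (D.aN N)) Set.univ ∅ i)
    (T : Finset V) (u : V) (hu : u ∈ T) (z : X × ZMod N) : c T (D.aN N u z) = - c T z := by
  rw [mem_KK] at hc
  exact congrFun (hc.2 T u (Or.inl hu)) z

theorem Slope.flat {x : X} {u : V} (h : D.dir u x = 0) (t : ZMod N) : D.aN N u (x, t) = (D.a u x, t) := by
  unfold Slope.aN
  simp [h]

theorem Slope.down {x : X} {u : V} (h : D.dir u x < 0) (t : ZMod N) : D.aN N u (x, t) = (D.a u x, t - 1) := by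
  unfold Slope.aN
  simp only [Int.sign_eq_neg_one_of_neg h]
  refine Prod.ext rfl ?_
  show t + ((-1 : ℤ) : ZMod N) = t - 1
  push_cast
  ring

theorem Slope.good_flat {T : Finset V} {x : X} {v : V} (hT : G.IsClique (T : Set V)) (hv : v ∈ T)
    (h0 : D.dir v x = 0) (w : V) (hw : w ∈ T) : D.dir w (D.a v x) = D.dir w x := by
  by_cases hwv : w = v
  · rw [hwv, D.odd, h0, neg_zero]
  · exact D.par w v (hT (by exact_mod_cast hw) (by exact_mod_cast hv) hwv) x

theorem Slope.pc_mem {c : Finset V → X × ZMod N → F} {i : ℕ} (hc : c ∈ KK G (pull F (D.aN N)) Set.univ ∅ i)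
    (t : ZMod N) : D.InP (D.pc c t) i := by
  have hc' := mem_KK.1 hc
  refine ⟨fun T x hT => ?_, fun T x v hv h0 => ?_⟩
  · by_cases h : D.Good T x
    · rw [D.pc_pos h, hc'.1 T fun h1 => hT ⟨h1.1, h1.2.2, h⟩]; rfl
    · exact D.pc_neg h
  · by_cases hT : G.IsClique (T : Set V)
    · have h2 : D.Good T (D.a v x) ↔ D.Good T x :=
        forall_congr' fun w => forall_congr' fun hw => by rw [D.good_flat hT hv h0 w hw]
      by_cases h : D.Good T x
      · rw [D.pc_pos h, D.pc_pos (h2.2 h), ← D.flat h0, D.anti hc T v hv]
      · rw [D.pc_neg h, D.pc_neg fun h' => h (h2.1 h'), neg_zero]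
    · unfold Slope.pc
      rw [hc'.1 T fun h => hT h.1]
      simp

/-- the piece of a boundary -/
theorem Slope.pc_bd {c : Finset V → X × ZMod N → F} {i : ℕ} (hc : c ∈ KK G (pull F (D.aN N)) Set.univ ∅ i)
    (t : ZMod N) (h0 : D.pc c (t - 1) = 0) : D.pc (bd F c) t = bd F (D.pc c t) := by
  funext T x
  rw [bd_apply, Finset.sum_apply]
  by_cases hT : D.Good T x
  · rw [D.pc_pos hT, bd_apply, Finset.sum_apply]
    refine Finset.sum_congr rfl fun u hu => ?_
    rw [Finset.mem_compl] at hu
    show sg u T • c (insert u T) (x, t) = sg u T • D.pc c t (insert u T) x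
    congr 1
    by_cases h2 : 0 ≤ D.dir u x
    · rw [D.pc_pos]
      intro v hv
      rcases Finset.mem_insert.1 hv with h3 | h3
      · rw [h3]; exact h2
      · exact hT v h3
    · rw [D.pc_neg fun h => h2 (h u (Finset.mem_insert_self u T))]
      have h2' : D.dir u x < 0 := not_le.1 h2
      by_cases h4 : G.IsClique ((insert u T : Finset V) : Set V)
      · have h5 := D.anti hc (insert u T) u (Finset.mem_insert_self u T) (x, t)
        rw [D.down h2'] at h5
        have h6 := congrFun (congrFun h0 (insert u T)) (D.a u x)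
        rw [D.pc_pos] at h6
        · rw [h6] at h5
          exact neg_eq_zero.1 h5.symm
        · intro w hw
          rcases Finset.mem_insert.1 hw with h7 | h7
          · rw [h7, D.odd]; omega
          · rw [D.par w u (h4 (by exact_mod_cast hw) (by simp) (fun e => hu (e ▸ h7)))]
            exact hT w h7
      · rw [(mem_KK.1 hc).1 (insert u T) fun h => h4 h.1]; rfl
  · rw [D.pc_neg hT]
    symm
    refine Finset.sum_eq_zero fun u _ => ?_
    show sg u T • D.pc c t (insert u T) x = 0
    rw [D.pc_neg fun h => hT fun v hv => h v (Finset.mem_insert_of_mem hv), smul_zero]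

/-- a chain all of whose pieces vanish is zero -/
theorem Slope.eq_zero {c : Finset V → X × ZMod N → F} {i : ℕ}
    (hc : c ∈ KK G (pull F (D.aN N)) Set.univ ∅ i) (h0 : ∀ t, D.pc c t = 0) : c = 0 := by
  funext T
  by_cases hT : G.IsClique (T : Set V)
  · have key : ∀ (n : ℕ) (x : X) (t : ZMod N), (T.filter fun v => D.dir v x < 0).card = n → c T (x, t) = 0 := by
      intro n
      induction n with
      | zero =>
        intro x t hn
        have h1 := congrFun (congrFun (h0 t) T) x
        rw [D.pc_pos] at h1
        · exact h1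
        · intro v hv
          by_contra h2
          have h3 : v ∈ T.filter fun v => D.dir v x < 0 := Finset.mem_filter.2 ⟨hv, not_le.1 h2⟩
          rw [Finset.card_eq_zero.1 hn] at h3
          simp at h3
      | succ n ih =>
        intro x t hn
        have h1 : (T.filter fun v => D.dir v x < 0).Nonempty := by
          rw [← Finset.card_pos]; omega
        obtain ⟨u, hu⟩ := h1
        have hu2 := Finset.mem_filter.1 hu
        have h5 := D.anti hc T u hu2.1 (x, t)
        rw [D.down hu2.2] at h5
        have h6 : (T.filter fun v => D.dir v (D.a u x) < 0) = (T.filter fun v => D.dir v x < 0).erase u := by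
          ext w
          simp only [Finset.mem_filter, Finset.mem_erase]
          constructor
          · rintro ⟨h7, h8⟩
            have h9 : w ≠ u := by
              rintro rfl
              rw [D.odd] at h8
              have := hu2.2
              omega
            refine ⟨h9, h7, ?_⟩
            rwa [D.par w u (hT (by exact_mod_cast h7) (by exact_mod_cast hu2.1) h9)] at h8
          · rintro ⟨h9, h7, h8⟩
            refine ⟨h7, ?_⟩
            rwa [D.par w u (hT (by exact_mod_cast h7) (by exact_mod_cast hu2.1) h9)]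
        have h7 := ih (D.a u x) (t - 1) (by rw [h6, Finset.card_erase_of_mem hu, hn]; rfl)
        rw [h7] at h5
        exact neg_eq_zero.1 h5.symm
    funext z
    exact key _ z.1 z.2 rfl
  · exact (mem_KK.1 hc).1 T fun h => hT h.1

/-- extension of a family of pieces at one height -/
theorem Slope.extend (t0 : ZMod N) (w : Finset V → X → F) (i : ℕ) (hw : D.InP w i) :
    ∃ W ∈ KK G (pull F (D.aN N)) Set.univ ∅ i, D.pc W t0 = w ∧ ∀ s, s ≠ t0 → D.pc W s = 0 := by
  have key : ∀ T : Finset V, G.IsClique (T : Set V) → ∀ S : Finset V, S ⊆ T → ∃ g : X × ZMod N → F,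
      (∀ u ∈ T, ∀ x s, (u ∈ S ∨ D.dir u x = 0) → g (D.aN N u (x, s)) = - g (x, s)) ∧
      (∀ x s, D.Good T x → g (x, s) = if s = t0 then w T x else 0) ∧
      (∀ x s, ∀ v ∈ T, v ∉ S → D.dir v x < 0 → g (x, s) = 0) := by
    intro T hT S
    induction S using Finset.induction_on with
    | empty =>
      intro _
      refine ⟨fun z => if D.Good T z.1 then (if z.2 = t0 then w T z.1 else 0) else 0, ?_, ?_, ?_⟩
      · rintro u hu x s (h | h)
        · simp at h
        · rw [D.flat h]
          show (if D.Good T (D.a u x) then (if s = t0 then w T (D.a u x) else 0) else 0) =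
            -(if D.Good T x then (if s = t0 then w T x else 0) else 0)
          have h2 : D.Good T (D.a u x) ↔ D.Good T x :=
            forall_congr' fun w => forall_congr' fun hw => by rw [D.good_flat hT hu h w hw]
          rw [hw.anti T x u hu h]
          simp only [h2]
          split_ifs <;> simp
      · intro x s h
        show (if D.Good T x then _ else _) = _
        rw [if_pos h]
      · intro x s v hv _ h
        show (if D.Good T x then _ else _) = _
        rw [if_neg]
        intro h1
        have := h1 v hv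
        omega
    | insert u S hu ih =>
      intro hS
      have huT : u ∈ T := hS (Finset.mem_insert_self u S)
      obtain ⟨g, g1, g2, g3⟩ := ih fun v hv => hS (Finset.mem_insert_of_mem hv)
      -- at the points where `u` is flat nothing has to be changed
      refine ⟨fun z => if D.dir u z.1 = 0 then g z else g z - g (D.aN N u z), ?_, ?_, ?_⟩
      · intro v hv x s h
        by_cases hvu : v = u
        · subst hvu
          show (if D.dir v (D.a v x) = 0 then g (D.aN N v (x, s)) else g (D.aN N v (x, s)) -
            g (D.aN N v (D.aN N v (x, s)))) = -(if D.dir v x = 0 then g (x, s) else g (x, s) - g (D.aN N v (x, s)))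
          by_cases h0 : D.dir v x = 0
          · rw [if_pos (by rw [D.odd, h0, neg_zero]), if_pos h0]
            exact g1 v hv x s (Or.inr h0)
          · rw [if_neg (by rw [D.odd]; omega), if_neg h0, D.aN_inv]; ring
        · have hadj : G.Adj u v := hT (by exact_mod_cast huT) (by exact_mod_cast hv) (Ne.symm hvu)
          have h' : v ∈ S ∨ D.dir v x = 0 := h.imp (fun h => (Finset.mem_insert.1 h).resolve_left hvu) id
          have h'' : v ∈ S ∨ D.dir v (D.aN N u (x, s)).1 = 0 := h'.imp id fun h => by
            show D.dir v (D.a u x) = 0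
            rw [D.par v u hadj.symm, h]
          show (if D.dir u (D.a v x) = 0 then g (D.aN N v (x, s)) else g (D.aN N v (x, s)) -
            g (D.aN N u (D.aN N v (x, s)))) = -(if D.dir u x = 0 then g (x, s) else g (x, s) - g (D.aN N u (x, s)))
          rw [D.par u v hadj, D.aN_comm u v hadj, g1 v hv x s h', g1 v hv _ _ h'']
          split_ifs
          · rfl
          · ring
      · intro x s h
        show (if D.dir u x = 0 then g (x, s) else g (x, s) - g (D.aN N u (x, s))) = _
        by_cases h0 : D.dir u x = 0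
        · rw [if_pos h0, g2 x s h]
        · have h1 : g (D.aN N u (x, s)) = 0 := by
            refine g3 _ _ u huT hu ?_
            show D.dir u (D.a u x) < 0
            rw [D.odd]
            have := h u huT
            omega
          rw [if_neg h0, h1, sub_zero, g2 x s h]
      · intro x s v hv hvS h
        have hvu : v ≠ u := fun e => hvS (by rw [e]; exact Finset.mem_insert_self u S)
        have hvS' : v ∉ S := fun e => hvS (Finset.mem_insert_of_mem e)
        show (if D.dir u x = 0 then g (x, s) else g (x, s) - g (D.aN N u (x, s))) = 0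
        rw [g3 x s v hv hvS' h, g3 _ _ v hv hvS' (by
          show D.dir v (D.a u x) < 0
          rw [D.par v u (hT (by exact_mod_cast hv) (by exact_mod_cast huT) hvu)]
          exact h), sub_zero, ite_self]
  have key2 : ∀ T : Finset V, ∃ g : X × ZMod N → F, (¬ (G.IsClique (T : Set V) ∧ T.card = i) → g = 0) ∧
      (∀ u ∈ T, ∀ z, g (D.aN N u z) = - g z) ∧
      (∀ x s, D.Good T x → g (x, s) = if s = t0 then w T x else 0) := by
    intro T
    by_cases h : G.IsClique (T : Set V) ∧ T.card = i
    · obtain ⟨g, g1, g2, _⟩ := key T h.1 T (Finset.Subset.refl T)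
      exact ⟨g, fun h1 => absurd h h1, fun u hu z => g1 u hu z.1 z.2 (Or.inl hu), g2⟩
    · refine ⟨0, fun _ => rfl, fun u _ z => by simp, fun x s _ => ?_⟩
      rw [hw.supp T x fun h2 => h ⟨h2.1, h2.2.1⟩]; simp
  choose g g0 g1 g2 using key2
  refine ⟨g, mem_KK.2 ⟨fun T hT => g0 T fun h => hT ⟨h.1, Set.subset_univ _, h.2⟩, ?_⟩, ?_, ?_⟩
  · intro T u hu
    rcases hu with hu | hu
    · funext z
      exact g1 T u hu z
    · exact absurd hu (Set.notMem_empty u)
  · funext T x
    by_cases h : D.Good T x
    · rw [D.pc_pos h, g2 T x t0 h, if_pos rfl]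
    · rw [D.pc_neg h, hw.supp T x fun h2 => h h2.2.2]
  · intro s hs
    funext T x
    by_cases h : D.Good T x
    · rw [D.pc_pos h, g2 T x s h, if_neg hs]; rfl
    · rw [D.pc_neg h]; rfl

end

end Pool.Agent.R703.MO
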