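import Pool.Agent.R703.MO.Slope

/-!
# Morse theory with flat directions: the Betti numbers of the cyclic coverings are bounded
-/

set_option autoImplicit false
set_option linter.unusedSectionVars false

namespace Pool.Agent.R703.MO

open Pool.Agent.W907.SG Module

section
variable {F : Type} [Field F] {V : Type} [Fintype V] [LinearOrder V] {X : Type} {G : SimpleGraph V}
  (D : Slope G X) {N : ℕ}

/-- exactness of the complex of pieces in the degree `i` -/
def Slope.Exact (D : Slope G X) (F : Type) [Field F] (i : ℕ) : Prop :=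
  ∀ c : Finset V → X → F, D.InP c i → bd F c = 0 → ∃ w : Finset V → X → F, D.InP w (i + 1) ∧ bd F w = c

theorem Slope.pc_bd_ne {W : Finset V → X × ZMod N → F} {i : ℕ} (hW : W ∈ KK G (pull F (D.aN N)) Set.univ ∅ i)
    (t : ZMod N) (h0 : ∀ s, s ≠ t → D.pc W s = 0) (s : ZMod N) (h1 : s ≠ t) (h2 : s ≠ t + 1) :
    D.pc (bd F W) s = 0 := by
  rw [D.pc_bd hW s (h0 _ fun e => h2 (by rw [← e]; ring)), h0 s h1, map_zero]

/-- killing the piece of a cycle at one height -/
theorem Slope.kill {i : ℕ} (hA : D.Exact F i) (hN : (1 : ZMod N) ≠ 0) {z : Finset V → X × ZMod N → F}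
    (hz : z ∈ KK G (pull F (D.aN N)) Set.univ ∅ i) (hb : bd F z = 0) (t : ZMod N) (h0 : D.pc z (t - 1) = 0) :
    ∃ W ∈ KK G (pull F (D.aN N)) Set.univ ∅ (i + 1), D.pc (z - bd F W) t = 0 ∧
      ∀ s, s ≠ t → s ≠ t + 1 → D.pc (bd F W) s = 0 := by
  obtain ⟨w, hw1, hw2⟩ := hA _ (D.pc_mem hz t) (by rw [← D.pc_bd hz t h0, hb, D.pc_zero])
  obtain ⟨W, hW, hW1, hW2⟩ := D.extend t w (i + 1) hw1
  refine ⟨W, hW, ?_, fun s hs1 hs2 => D.pc_bd_ne hW t hW2 s hs1 hs2⟩
  rw [D.pc_sub, D.pc_bd hW t (hW2 _ fun e => hN (by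
    have : t - 1 = t - 0 := by rw [e]; ring
    exact sub_right_injective this)), hW1, hw2, sub_self]

/-- cycles without piece at height `0` are homologous to cycles with pieces only at height `N - 1` -/
theorem Slope.push {i : ℕ} (hA : D.Exact F i) (hN : 2 ≤ N) {z : Finset V → X × ZMod N → F}
    (hz : z ∈ KK G (pull F (D.aN N)) Set.univ ∅ i) (hb : bd F z = 0) (h0 : D.pc z 0 = 0) :
    ∀ m : ℕ, m + 2 ≤ N → ∃ W ∈ KK G (pull F (D.aN N)) Set.univ ∅ (i + 1),
      ∀ s ≤ m, D.pc (z - bd F W) (s : ZMod N) = 0 := by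
  have h1N : (1 : ZMod N) ≠ 0 := by
    have : Fact (1 < N) := ⟨by omega⟩
    exact one_ne_zero
  have hne : ∀ a b : ℕ, a < b → b < N → (a : ZMod N) ≠ (b : ZMod N) := by
    intro a b hab hb h
    have h1 := (ZMod.natCast_eq_natCast_iff' a b N).1 h
    rw [Nat.mod_eq_of_lt (by omega), Nat.mod_eq_of_lt hb] at h1
    omega
  intro m
  induction m with
  | zero =>
    intro _
    refine ⟨0, Submodule.zero_mem _, fun s hs => ?_⟩
    have : s = 0 := by omega
    subst this
    rw [map_zero, sub_zero, Nat.cast_zero]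
    exact h0
  | succ m ih =>
    intro hm
    obtain ⟨W, hW, h1⟩ := ih (by omega)
    have hz' : z - bd F W ∈ KK G (pull F (D.aN N)) Set.univ ∅ i := Submodule.sub_mem _ hz (bd_mem_KK hW)
    have hb' : bd F (z - bd F W) = 0 := by rw [map_sub, hb, bd_bd, sub_zero]
    obtain ⟨W', hW', h2, h3⟩ := D.kill hA h1N hz' hb' ((m + 1 : ℕ) : ZMod N) (by
      have := h1 m le_rfl
      rwa [show ((m + 1 : ℕ) : ZMod N) - 1 = (m : ZMod N) by push_cast; ring])
    refine ⟨W + W', Submodule.add_mem _ hW hW', fun s hs => ?_⟩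
    rw [map_add, ← sub_sub]
    rcases Nat.lt_or_ge s (m + 1) with h4 | h4
    · rw [D.pc_sub, h1 s (by omega), h3 s (hne s (m + 1) h4 (by omega)) ?_, sub_self]
      have h5 := hne s (m + 1 + 1) (by omega) (by omega)
      push_cast at h5 ⊢
      exact h5
    · have : s = m + 1 := by omega
      subst this
      exact h2

variable [Fintype X]

/-- the piece at one height, as a linear map -/
noncomputable def Slope.pcl (D : Slope G X) (F : Type) [Field F] (t : ZMod N) :
    (Finset V → X × ZMod N → F) →ₗ[F] (Finset V → X → F) where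
  toFun c := D.pc c t
  map_add' c d := D.pc_add c d t
  map_smul' k c := D.pc_smul k c t

theorem Slope.beta_le {i : ℕ} (hA : D.Exact F i) (hN : 2 ≤ N) [Fintype (ZMod N)] :
    beta G (pull F (D.aN N)) Set.univ ∅ i ≤ 2 * (2 ^ Fintype.card V * Fintype.card X) := by
  classical
  have hE : finrank F (Finset V → X → F) = 2 ^ Fintype.card V * Fintype.card X := by
    rw [finrank_pi_fintype, Finset.sum_const, Finset.card_univ, finrank_fintype_fun_eq_card, Fintype.card_finset,
      smul_eq_mul]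
  set Z := ZZ G (pull F (D.aN N)) Set.univ ∅ i with hZ
  set B := BB G (pull F (D.aN N)) Set.univ ∅ i with hB
  -- the cycles with pieces only at height `-1`
  set L : Submodule F (Finset V → X × ZMod N → F) := Z ⊓ ⨅ s : {s : ZMod N // s ≠ -1}, LinearMap.ker (D.pcl F s.1)
    with hL
  have hLmem : ∀ c, c ∈ L ↔ c ∈ Z ∧ ∀ s : ZMod N, s ≠ -1 → D.pc c s = 0 := by
    intro c
    rw [hL, Submodule.mem_inf, Submodule.mem_iInf]
    refine and_congr_right fun _ => ⟨fun h s hs => LinearMap.mem_ker.1 (h ⟨s, hs⟩), fun h s => ?_⟩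
    rw [LinearMap.mem_ker]
    exact h s.1 s.2
  have hL2 : finrank F L ≤ finrank F (Finset V → X → F) := by
    refine LinearMap.finrank_le_finrank_of_injective (f := (D.pcl F (-1 : ZMod N)).domRestrict L) ?_
    rw [← LinearMap.ker_eq_bot, LinearMap.ker_eq_bot']
    rintro ⟨c, hc⟩ h
    have hc' := (hLmem c).1 hc
    refine Subtype.ext ?_
    refine D.eq_zero hc'.1.1 fun t => ?_
    by_cases ht : t = -1
    · subst ht
      exact h
    · exact hc'.2 t ht
  have hK : finrank F (LinearMap.ker ((D.pcl F (0 : ZMod N)).domRestrict Z)) ≤ finrank F ↥(B ⊔ L) := by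
    have h1 : ∀ c : LinearMap.ker ((D.pcl F (0 : ZMod N)).domRestrict Z),
        (c.1.1 : Finset V → X × ZMod N → F) ∈ B ⊔ L := by
      rintro ⟨⟨z, hz⟩, h⟩
      have h0 : D.pc z 0 = 0 := LinearMap.mem_ker.1 h
      obtain ⟨W, hW, h2⟩ := D.push hA hN hz.1 (LinearMap.mem_ker.1 hz.2) h0 (N - 2) (by omega)
      rw [Submodule.mem_sup]
      refine ⟨bd F W, ⟨W, hW, rfl⟩, z - bd F W, ?_, by abel⟩
      rw [hLmem]
      refine ⟨Submodule.sub_mem _ hz (BB_le_ZZ _ _ _ _ _ ⟨W, hW, rfl⟩), fun s hs => ?_⟩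
      have hN0 : NeZero N := ⟨by omega⟩
      have h3 := h2 s.val (by
        have h4 : s.val < N := ZMod.val_lt s
        by_contra h5
        have h6 : s.val = N - 1 := by omega
        apply hs
        have h7 : ((s.val : ℕ) : ZMod N) = s := ZMod.natCast_zmod_val s
        rw [← h7, h6, Nat.cast_sub (by omega), ZMod.natCast_self]
        simp)
      rwa [ZMod.natCast_zmod_val] at h3
    refine LinearMap.finrank_le_finrank_of_injective
      (f := (Z.subtype.comp (LinearMap.ker ((D.pcl F (0 : ZMod N)).domRestrict Z)).subtype).codRestrict (B ⊔ L) h1) ?_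
    intro c d h
    have := congrArg Subtype.val h
    exact Subtype.ext (Subtype.ext this)
  have h2 := LinearMap.finrank_range_add_finrank_ker ((D.pcl F (0 : ZMod N)).domRestrict Z)
  have h3 : finrank F (LinearMap.range ((D.pcl F (0 : ZMod N)).domRestrict Z)) ≤ finrank F (Finset V → X → F) :=
    Submodule.finrank_le _
  have h4 := Submodule.finrank_add_le_finrank_add_finrank B L
  show finrank F Z - finrank F B ≤ _
  rw [← hE]
  omega

end

/-- vanishing from exactness over the reals, for all products with `W_G`-sets -/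
theorem slope_van {V : Type} [Fintype V] [LinearOrder V] {G : SimpleGraph V} {X : Type} [Fintype X] [Nonempty X]
    (D : Slope G X) (i : ℕ) (h : ∀ (Y : Type) [Fintype Y] (b : V → Y → Y) (hb1 : ∀ v y, b v (b v y) = y)
      (hb2 : ∀ u v, G.Adj u v → ∀ y, b u (b v y) = b v (b u y)), (D.prod b hb1 hb2).Exact ℝ i) :
    L2Van G i := by
  classical
  refine large V G i fun N E hE => ?_
  have hp3 : Fact (Nat.Prime 3) := ⟨Nat.prime_three⟩
  obtain ⟨Y, _, hYn, P, ev, f1, f2, f3, f4⟩ := nilp 3 V G E (by decide) hE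
  obtain ⟨C, hC⟩ : ∃ C : ℕ, C = 2 ^ Fintype.card V := ⟨_, rfl⟩
  obtain ⟨N1, hN1⟩ : ∃ N1 : ℕ, N1 = 2 * N * C + 2 := ⟨_, rfl⟩
  have hN0 : NeZero N1 := ⟨by omega⟩
  have hfin : Fintype (ZMod N1) := ZMod.fintype N1
  have hcard : Fintype.card (ZMod N1) = N1 := ZMod.card N1
  set D' := D.prod P.a P.inv P.comm with hD'
  obtain ⟨ev1, g1, g2, g3⟩ := Pool.Agent.R781.VS.exists_ev G (D.aN N1) (fun v z => D.aN_inv v z)
    (fun u v huv z => D.aN_comm u v huv z)
  refine ⟨(X × Y) × ZMod N1, inferInstance, inferInstance, D'.aN N1,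
    fun z g => (((ev1 (z.1.1, z.2) g).1, ev z.1.2 g), (ev1 (z.1.1, z.2) g).2), D'.aN_inv,
    D'.aN_comm, fun z => ?_, fun z g g' => ?_, fun z v => ?_, fun g hg z hz => ?_, ?_⟩
  · show (((ev1 (z.1.1, z.2) 1).1, ev z.1.2 1), (ev1 (z.1.1, z.2) 1).2) = z
    rw [g1, f1]
  · show (((ev1 (z.1.1, z.2) (g * g')).1, ev z.1.2 (g * g')), (ev1 (z.1.1, z.2) (g * g')).2) =
      (((ev1 ((ev1 (z.1.1, z.2) g).1, (ev1 (z.1.1, z.2) g).2) g').1, ev (ev z.1.2 g) g'),
        (ev1 ((ev1 (z.1.1, z.2) g).1, (ev1 (z.1.1, z.2) g).2) g').2)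
    rw [g2, f2]
  · show (((ev1 (z.1.1, z.2) ((cox G).simple v)).1, ev z.1.2 ((cox G).simple v)),
      (ev1 (z.1.1, z.2) ((cox G).simple v)).2) = D'.aN N1 v z
    rw [g3, f3]
    rfl
  · exact f4 g hg z.1.2 (congrArg (fun w => w.1.2) hz)
  · have b1 := D'.beta_le (F := ℝ) (i := i) (h Y P.a P.inv P.comm) (N := N1) (by omega)
    rw [Fintype.card_prod, hcard]
    rw [← hC] at b1
    calc N * beta G (pull ℝ (D'.aN N1)) Set.univ ∅ i ≤ N * (2 * (C * Fintype.card (X × Y))) :=
          Nat.mul_le_mul_left _ b1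
      _ = (2 * N * C) * Fintype.card (X × Y) := by ring
      _ ≤ N1 * Fintype.card (X × Y) := Nat.mul_le_mul_right _ (by omega)
      _ = Fintype.card (X × Y) * N1 := by ring

end Pool.Agent.R703.MO
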