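import Pool.Agent.R703.MO.Bound
import Pool.Agent.W338.SG.ADD

/-!
# Asymptotic vanishing for mixed complexes and the Morse criterion
-/

set_option autoImplicit false
set_option linter.unusedSectionVars false

namespace Pool.Agent.R703.MO

open Pool.Agent.W907.SG Module
open Pool.Agent.W338.SG (small_restrict)

section
variable {F : Type} [Field F] {V : Type} [Fintype V] [LinearOrder V] {G : SimpleGraph V}

theorem KK_congr {M : Type} [AddCommGroup M] [Module F M] {ρ ρ' : V → M →ₗ[F] M} {A : Set V} {i : ℕ}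
    (h : ∀ v ∈ A, ρ v = ρ' v) : KK G ρ A ∅ i = KK G ρ' A ∅ i := by
  have key : ∀ ρ ρ' : V → M →ₗ[F] M, (∀ v ∈ A, ρ v = ρ' v) → KK G ρ A ∅ i ≤ KK G ρ' A ∅ i := by
    intro ρ ρ' h c hc
    have hc' := mem_KK.1 hc
    refine mem_KK.2 ⟨hc'.1, fun T t ht => ?_⟩
    by_cases hT : (T : Set V) ⊆ A
    · rcases ht with ht | ht
      · rw [← h t (hT ht)]
        exact hc'.2 T t (Or.inl ht)
      · exact absurd ht (Set.notMem_empty t)
    · rw [hc'.1 T fun h1 => hT h1.2.1]; simp
  exact le_antisymm (key ρ ρ' h) (key ρ' ρ fun v hv => (h v hv).symm)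

theorem beta_congr {M : Type} [AddCommGroup M] [Module F M] {ρ ρ' : V → M →ₗ[F] M} {A : Set V} {i : ℕ}
    (h : ∀ v ∈ A, ρ v = ρ' v) : beta G ρ A ∅ i = beta G ρ' A ∅ i := by
  unfold beta ZZ BB
  rw [KK_congr (i := i) h, KK_congr (i := i + 1) h]

theorem KK_S {M : Type} [AddCommGroup M] [Module F M] {ρ : V → M →ₗ[F] M} {A : Set V} {v : V} {i : ℕ}
    (h : ∀ m, ρ v m = - m) : KK G ρ A (insert v ∅) i = KK G ρ A ∅ i := by
  ext c
  rw [mem_KK, mem_KK]
  refine and_congr_right fun _ => ⟨fun h1 T t ht => h1 T t ?_, fun h1 T t ht => ?_⟩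
  · rcases ht with ht | ht
    · exact Or.inl ht
    · exact absurd ht (Set.notMem_empty t)
  · rcases ht with ht | ht
    · exact h1 T t (Or.inl ht)
    · rcases ht with ht | ht
      · rw [ht]; exact h _
      · exact absurd ht (Set.notMem_empty t)

theorem beta_S {M : Type} [AddCommGroup M] [Module F M] {ρ : V → M →ₗ[F] M} {A : Set V} {v : V} {i : ℕ}
    (h : ∀ m, ρ v m = - m) : beta G ρ A (insert v ∅) i = beta G ρ A ∅ i := by
  unfold beta ZZ BB
  rw [KK_S (i := i) h, KK_S (i := i + 1) h]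

theorem beta_zero_of {M : Type} [AddCommGroup M] [Module F M] {ρ : V → M →ₗ[F] M} {A : Set V} {i : ℕ}
    (h : ∀ z ∈ KK G ρ A ∅ i, bd F z = 0 → ∃ w ∈ KK G ρ A ∅ (i + 1), bd F w = z) : beta G ρ A ∅ i = 0 := by
  unfold beta
  have : ZZ G ρ A ∅ i = BB G ρ A ∅ i := by
    refine le_antisymm ?_ (BB_le_ZZ _ _ _ _ _)
    rintro z ⟨h1, h2⟩
    obtain ⟨w, hw, rfl⟩ := h z h1 (LinearMap.mem_ker.1 h2)
    exact ⟨w, hw, rfl⟩
  rw [this, Nat.sub_self]

/-- cones over passive vertices are acyclic -/
theorem beta_cone {M : Type} [AddCommGroup M] [Module F M] {ρ : V → M →ₗ[F] M} {A : Set V} {u : V} (hu : u ∈ A)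
    (hadj : ∀ w ∈ A, w ≠ u → G.Adj u w) (hρ : ∀ m, ρ u m = - m) (i : ℕ) : beta G ρ A ∅ i = 0 := by
  classical
  refine beta_zero_of fun z hz hb => ?_
  have hz' := mem_KK.1 hz
  refine ⟨fun T => if u ∈ T then sg u (T.erase u) • z (T.erase u) else 0, mem_KK.2 ⟨fun T hT => ?_, fun T t ht => ?_⟩,
    ?_⟩
  · show (if u ∈ T then _ else _) = _
    split_ifs with h
    · rw [hz'.1 (T.erase u), smul_zero]
      rintro ⟨h1, h2, h3⟩
      apply hT
      refine ⟨?_, ?_, ?_⟩
      · intro a ha c hc hac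
        by_cases hau : a = u
        · subst hau
          exact hadj c (h2 (Finset.mem_erase.2 ⟨Ne.symm hac, hc⟩)) (Ne.symm hac)
        · by_cases hcu : c = u
          · subst hcu
            exact (hadj a (h2 (Finset.mem_erase.2 ⟨hac, ha⟩)) hac).symm
          · exact h1 (Finset.mem_erase.2 ⟨hau, ha⟩) (Finset.mem_erase.2 ⟨hcu, hc⟩) hac
      · intro a ha
        by_cases hau : a = u
        · rw [hau]; exact hu
        · exact h2 (Finset.mem_erase.2 ⟨hau, ha⟩)
      · have := Finset.card_erase_add_one h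
        omega
    · rfl
  · rcases ht with ht | ht
    · show ρ t (if u ∈ T then _ else _) = - (if u ∈ T then _ else _)
      split_ifs with h
      · by_cases htu : t = u
        · rw [htu]; exact hρ _
        · rw [map_zsmul, hz'.2 (T.erase u) t (Or.inl (Finset.mem_erase.2 ⟨htu, ht⟩)), smul_neg]
      · simp
    · exact absurd ht (Set.notMem_empty t)
  · funext T
    rw [bd_apply]
    by_cases hT : u ∈ T
    · -- `T = insert u T'`
      obtain ⟨T', hT', rfl⟩ : ∃ T', u ∉ T' ∧ T = insert u T' := ⟨T.erase u, Finset.notMem_erase u T,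
        (Finset.insert_erase hT).symm⟩
      have h1 : bd F z T' = 0 := congrFun hb T'
      rw [bd_apply] at h1
      have h2 : (T' : Finset V)ᶜ = insert u (insert u T')ᶜ := by
        ext w
        simp only [Finset.mem_compl, Finset.mem_insert]
        constructor
        · intro h
          by_cases hwu : w = u
          · exact Or.inl hwu
          · exact Or.inr fun h3 => h3.elim hwu h
        · rintro (h | h)
          · rw [h]; exact hT'
          · exact fun h3 => h (Or.inr h3)
      rw [h2, Finset.sum_insert (by simp)] at h1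
      have h3 : ∀ v ∈ (insert u T')ᶜ, sg v (insert u T') • (if u ∈ insert v (insert u T') then
          sg u ((insert v (insert u T')).erase u) • z ((insert v (insert u T')).erase u) else 0) =
          - (sg u T' • (sg v T' • z (insert v T'))) := by
        intro v hv
        rw [Finset.mem_compl, Finset.mem_insert, not_or] at hv
        rw [if_pos (by simp)]
        have h4 : (insert v (insert u T')).erase u = insert v T' := by
          rw [Finset.insert_comm, Finset.erase_insert]
          simp only [Finset.mem_insert, not_or]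
          exact ⟨Ne.symm hv.1, hT'⟩
        rw [h4, smul_smul, smul_smul, ← neg_smul]
        congr 1
        have h5 := sg_swap v u T' hv.1 hv.2 hT'
        -- `sg v (insert u T') * sg u T' = - (sg u (insert v T') * sg v T')`
        have h6 := sg_mul_self u T'
        have h7 := sg_mul_self u (insert v T')
        calc sg v (insert u T') * sg u (insert v T')
            = (sg v (insert u T') * sg u T') * sg u T' * sg u (insert v T') := by
              rw [mul_assoc (sg v (insert u T')) (sg u T') (sg u T'), h6, mul_one]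
          _ = - (sg u (insert v T') * sg v T') * sg u T' * sg u (insert v T') := by rw [h5]
          _ = - (sg u T' * sg v T') * (sg u (insert v T') * sg u (insert v T')) := by ring
          _ = - (sg u T' * sg v T') := by rw [h7, mul_one]
      rw [Finset.sum_congr rfl h3, Finset.sum_neg_distrib, ← Finset.smul_sum,
        eq_neg_of_add_eq_zero_right h1, smul_neg, neg_neg, smul_smul, sg_mul_self, one_smul]
    · rw [Finset.sum_eq_single u]
      · rw [if_pos (Finset.mem_insert_self u T), Finset.erase_insert hT, smul_smul, sg_mul_self, one_smul]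
      · intro v _ hvu
        rw [if_neg, smul_zero]
        simp only [Finset.mem_insert, not_or]
        exact ⟨Ne.symm hvu, hT⟩
      · intro h
        exact absurd (Finset.mem_compl.2 hT) h

/-- if all vertices are passive the complex is a sum of copies of the reduced chain complex -/
theorem beta_passive {Y : Type} {B A : Set V} (b : V → Y → Y) (hAB : ∀ v ∈ A, v ∉ B) (i : ℕ)
    (h : beta G (neg F V) A ∅ i = 0) : beta G (rr F B b) A ∅ i = 0 := by
  have h2 : BB G (neg F V) A ∅ i = ZZ G (neg F V) A ∅ i := by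
    unfold beta at h
    exact Submodule.eq_of_le_of_finrank_le (BB_le_ZZ _ _ _ _ _) (by omega)
  refine beta_zero_of fun z hz hb => ?_
  have hz' := mem_KK.1 hz
  have h3 : ∀ y : Y, ∃ w ∈ KK G (neg F V) A ∅ (i + 1), bd F w = fun T => z T y := by
    intro y
    have h4 : (fun T => z T y) ∈ ZZ G (neg F V) A ∅ i := by
      refine ⟨mem_KK.2 ⟨fun T hT => ?_, fun T t _ => rfl⟩, ?_⟩
      · rw [hz'.1 T hT]; rfl
      · rw [SetLike.mem_coe, LinearMap.mem_ker]
        funext T
        have h5 := congrFun (congrFun hb T) y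
        rw [bd_apply, Finset.sum_apply] at h5
        rw [bd_apply]
        exact h5
    rw [← h2] at h4
    obtain ⟨w, hw, h5⟩ := h4
    exact ⟨w, hw, h5⟩
  choose w hw1 hw2 using h3
  refine ⟨fun T y => w y T, mem_KK.2 ⟨fun T hT => ?_, fun T t ht => ?_⟩, ?_⟩
  · funext y
    exact (mem_KK.1 (hw1 y)).1 T hT
  · by_cases hT : (T : Set V) ⊆ A
    · rcases ht with ht | ht
      · exact rr_neg (hAB t (hT ht)) _
      · exact absurd ht (Set.notMem_empty t)
    · have : (fun y => w y T) = 0 := funext fun y => (mem_KK.1 (hw1 y)).1 T fun h => hT h.2.1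
      rw [this]; simp
  · funext T y
    rw [bd_apply, Finset.sum_apply]
    have h5 := congrFun (hw2 y) T
    rw [bd_apply] at h5
    exact h5

end

section
variable {V : Type} [Fintype V] [LinearOrder V] {G : SimpleGraph V} {B : Set V}

/-- asymptotic vanishing of the homology of the mixed complex on the vertex set `A`: the vertices of `B` are active,
the others are passive -/
def Sm (G : SimpleGraph V) (B A : Set V) (i : ℕ) : Prop :=
  ∀ N : ℕ, ∃ E : Finset (W G), (1 : W G) ∉ E ∧ ∀ (Y : Type) [Fintype Y] (b : V → Y → Y) (ev : Y → W G → Y),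
    (∀ v y, b v (b v y) = y) → (∀ u v, G.Adj u v → ∀ y, b u (b v y) = b v (b u y)) → (∀ y, ev y 1 = y) →
    (∀ y g h, ev y (g * h) = ev (ev y g) h) → (∀ y v, ev y ((cox G).simple v) = b v y) →
    (∀ g ∈ E, ∀ y, ev y g ≠ y) → N * beta G (rr ℝ B b) A ∅ i ≤ Fintype.card Y

theorem Sm.of_zero {A : Set V} {i : ℕ} (h : ∀ (Y : Type) [Fintype Y] (b : V → Y → Y), beta G (rr ℝ B b) A ∅ i = 0) :
    Sm G B A i := by
  intro N
  refine ⟨∅, Finset.notMem_empty _, fun Y _ b _ _ _ _ _ _ _ => ?_⟩
  rw [h Y b, mul_zero]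
  exact Nat.zero_le _

/-- active vertices only -/
theorem Sm.of_l2 {A : Set V} {i : ℕ} (hA : A ⊆ B) [Fintype A] (h : L2Van (G.induce A) i) : Sm G B A i := by
  intro N
  obtain ⟨E, h1, h2⟩ := small_restrict small tr G A i h N
  refine ⟨E, h1, fun Y _ b ev k1 k2 k3 k4 k5 k6 => ?_⟩
  have h3 := h2 Y b ev k1 k2 k3 k4 k5 k6
  have h4 : beta G (rr ℝ B b) A ∅ i = beta G (pull ℝ b) A ∅ i := by
    refine beta_congr fun v hv => ?_
    unfold rr
    rw [if_pos (hA hv)]
  rw [h4]
  exact h3

/-- adding a passive vertex -/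
theorem Sm.vert {A : Set V} {i : ℕ} {v : V} (hB : v ∉ B) (hA : v ∉ A) (h1 : Sm G B A i)
    (h2 : ∀ j, i = j + 1 → Sm G B (A ∩ G.neighborSet v) j) : Sm G B (insert v A) i := by
  classical
  intro N
  cases i with
  | zero =>
    obtain ⟨E, e1, e2⟩ := h1 N
    refine ⟨E, e1, fun Y _ b ev k1 k2 k3 k4 k5 k6 => ?_⟩
    exact (Nat.mul_le_mul_left N (Pool.Agent.W907.SG.vert V ℝ (Y → ℝ) G (rr ℝ B b) A ∅ v hA (Set.notMem_empty v)).1).trans
      (e2 Y b ev k1 k2 k3 k4 k5 k6)
  | succ j =>
    obtain ⟨E, e1, e2⟩ := h1 (2 * N)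
    obtain ⟨E', e1', e2'⟩ := h2 j rfl (2 * N)
    refine ⟨E ∪ E', fun h => (Finset.mem_union.1 h).elim e1 e1', fun Y _ b ev k1 k2 k3 k4 k5 k6 => ?_⟩
    have b1 := (Pool.Agent.W907.SG.vert V ℝ (Y → ℝ) G (rr ℝ B b) A ∅ v hA (Set.notMem_empty v)).2 j
    rw [beta_S fun m => rr_neg hB m] at b1
    exact Pool.Agent.W338.SG.arith b1
      (e2 Y b ev k1 k2 k3 k4 k5 fun g hg => k6 g (Finset.mem_union_left _ hg))
      (e2' Y b ev k1 k2 k3 k4 k5 fun g hg => k6 g (Finset.mem_union_right _ hg))

/-- passive vertices, from the conditions for all cliques of passive vertices -/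
theorem Sm.cliques : ∀ (n : ℕ) (U : Finset V) (C : Set V) (i : ℕ), U.card = n → (∀ v ∈ U, v ∉ B) → C ⊆ B →
    (∀ T : Finset V, G.IsClique (T : Set V) → T ⊆ U → ∀ j, i = j + T.card →
      Sm G B (C ∩ {v | ∀ t ∈ T, G.Adj t v}) j) → Sm G B ((U : Set V) ∪ C) i := by
  classical
  intro n
  induction n using Nat.strong_induction_on with
  | _ n ih =>
  intro U C i hn hU hC h
  rcases U.eq_empty_or_nonempty with h0 | ⟨u, hu⟩
  · subst h0
    have h1 := h ∅ (by simp) (Finset.Subset.refl _) i (by simp)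
    have h2 : C ∩ {v | ∀ t ∈ (∅ : Finset V), G.Adj t v} = C := by
      ext v; simp
    rw [h2] at h1
    rw [Finset.coe_empty, Set.empty_union]
    exact h1
  · have e1 : ((U : Set V) ∪ C) = insert u (((U.erase u : Finset V) : Set V) ∪ C) := by
      ext v
      simp only [Set.mem_union, Finset.mem_coe, Set.mem_insert_iff, Finset.mem_erase]
      constructor
      · rintro (h1 | h1)
        · by_cases hvu : v = u
          · exact Or.inl hvu
          · exact Or.inr (Or.inl ⟨hvu, h1⟩)
        · exact Or.inr (Or.inr h1)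
      · rintro (h1 | h1 | h1)
        · rw [h1]; exact Or.inl hu
        · exact Or.inl h1.2
        · exact Or.inr h1
    rw [e1]
    have hlt : (U.erase u).card < n := by
      rw [← hn]; exact Finset.card_lt_card (Finset.erase_ssubset hu)
    refine Sm.vert (hU u hu) ?_ ?_ fun j hj => ?_
    · rintro (h1 | h1)
      · simp at h1
      · exact hU u hu (hC h1)
    · exact ih _ hlt _ C i rfl (fun v hv => hU v (Finset.mem_of_mem_erase hv)) hC fun T hT hTU j hj =>
        h T hT (hTU.trans (Finset.erase_subset u U)) j hj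
    · have e2 : ((((U.erase u : Finset V) : Set V) ∪ C) ∩ G.neighborSet u) =
          (((U.erase u).filter fun w => G.Adj u w : Finset V) : Set V) ∪ (C ∩ G.neighborSet u) := by
        ext v
        simp only [Set.mem_inter_iff, Set.mem_union, Finset.coe_filter, Finset.mem_coe, SimpleGraph.mem_neighborSet,
          Set.mem_ofPred_eq]
        tauto
      rw [e2]
      refine ih _ (lt_of_le_of_lt (Finset.card_filter_le _ _) hlt) _ _ j rfl
        (fun v hv => hU v (Finset.mem_of_mem_erase (Finset.mem_filter.1 hv).1))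
        (fun v hv => hC hv.1) fun T hT hTU k hk => ?_
      have huT : u ∉ T := fun h1 => by
        have := (Finset.mem_filter.1 (hTU h1)).1
        simp at this
      have h3 := h (insert u T) ?_ ?_ k (by rw [Finset.card_insert_of_notMem huT, hj, hk]; ring)
      · have e3 : C ∩ {v | ∀ t ∈ insert u T, G.Adj t v} = C ∩ G.neighborSet u ∩ {v | ∀ t ∈ T, G.Adj t v} := by
          ext v
          simp only [Set.mem_inter_iff, Set.mem_ofPred_eq, Finset.mem_insert, forall_eq_or_imp,
            SimpleGraph.mem_neighborSet]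
          tauto
        rw [← e3]
        exact h3
      · rw [Finset.coe_insert, SimpleGraph.isClique_insert]
        exact ⟨hT, fun w hw _ => (Finset.mem_filter.1 (hTU hw)).2⟩
      · intro w hw
        rcases Finset.mem_insert.1 hw with h4 | h4
        · rw [h4]; exact hu
        · exact Finset.mem_of_mem_erase (Finset.mem_filter.1 (hTU h4)).1

/-- **The Morse criterion**, relative to the set `B` of horizontal vertices. -/
theorem morse {X : Type} [Fintype X] [Nonempty X] (D : Dir G B X) (i : ℕ) (h : ∀ x, Sm G B (D.U x) i) :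
    L2Van G i := by
  classical
  refine large V G i fun N E hE => ?_
  have hp3 : Fact (Nat.Prime 3) := ⟨Nat.prime_three⟩
  choose Ex e1 e2 using fun x => h x (2 * N)
  obtain ⟨Y, _, hYn, P, ev, f1, f2, f3, f4⟩ := nilp 3 V G (E ∪ Finset.univ.biUnion Ex) (by decide) (by
    rw [Finset.mem_union, Finset.mem_biUnion]
    rintro (h | ⟨x, _, h⟩)
    · exact hE h
    · exact e1 x h)
  obtain ⟨C, hC⟩ : ∃ C : ℕ, C = 2 ^ Fintype.card V := ⟨_, rfl⟩
  obtain ⟨N1, hN1⟩ : ∃ N1 : ℕ, N1 = 4 * N * C + 2 := ⟨_, rfl⟩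
  have hN0 : NeZero N1 := ⟨by omega⟩
  have hfin : Fintype (ZMod N1) := ZMod.fintype N1
  have hcard : Fintype.card (ZMod N1) = N1 := ZMod.card N1
  obtain ⟨ev1, g1, g2, g3⟩ := Pool.Agent.R781.VS.exists_ev G (D.aN N1 fun _ (y : Unit) => y)
    (fun v z => D.aN_inv (fun _ _ => rfl) v z) (fun u v huv z => D.aN_comm (fun _ _ _ _ => rfl) u v huv z)
  have g3' : ∀ (x : X) (t : ZMod N1) (v : V), (ev1 (x, t, ()) ((cox G).simple v)).1 = D.a v x ∧
      (ev1 (x, t, ()) ((cox G).simple v)).2.1 = (if v ∈ B then t else if D.up v x then t + 1 else t - 1) := by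
    intro x t v
    rw [g3]
    exact ⟨rfl, rfl⟩
  refine ⟨X × ZMod N1 × Y, inferInstance, inferInstance, D.aN N1 P.a,
    fun z g => ((ev1 (z.1, z.2.1, ()) g).1, (ev1 (z.1, z.2.1, ()) g).2.1, ev z.2.2 g), D.aN_inv P.inv,
    D.aN_comm P.comm, fun z => ?_, fun z g g' => ?_, fun z v => ?_, fun g hg z hz => ?_, ?_⟩
  · show ((ev1 (z.1, z.2.1, ()) 1).1, (ev1 (z.1, z.2.1, ()) 1).2.1, ev z.2.2 1) = z
    rw [g1, f1]
  · show ((ev1 (z.1, z.2.1, ()) (g * g')).1, (ev1 (z.1, z.2.1, ()) (g * g')).2.1, ev z.2.2 (g * g')) =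
      ((ev1 ((ev1 (z.1, z.2.1, ()) g).1, (ev1 (z.1, z.2.1, ()) g).2.1, ()) g').1,
        (ev1 ((ev1 (z.1, z.2.1, ()) g).1, (ev1 (z.1, z.2.1, ()) g).2.1, ()) g').2.1, ev (ev z.2.2 g) g')
    rw [g2, f2]
  · refine Prod.ext ?_ (Prod.ext ?_ ?_)
    · exact (g3' z.1 z.2.1 v).1
    · exact (g3' z.1 z.2.1 v).2
    · exact f3 z.2.2 v
  · exact f4 g (Finset.mem_union_left _ hg) z.2.2 (congrArg (fun w => w.2.2) hz)
  · have b1 := D.beta_le (F := ℝ) P.inv P.comm i (N := N1) (by omega)
    have b2 : 2 * N * ∑ x, beta G (rr ℝ B P.a) (D.U x) ∅ i ≤ Fintype.card X * Fintype.card Y := by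
      rw [Finset.mul_sum]
      calc ∑ x, 2 * N * beta G (rr ℝ B P.a) (D.U x) ∅ i ≤ ∑ _x : X, Fintype.card Y :=
            Finset.sum_le_sum fun x _ => e2 x Y P.a ev P.inv P.comm f1 f2 f3 fun g hg =>
              f4 g (Finset.mem_union_right _ (Finset.mem_biUnion.2 ⟨x, Finset.mem_univ x, hg⟩))
        _ = Fintype.card X * Fintype.card Y := by rw [Finset.sum_const, Finset.card_univ, smul_eq_mul]
    rw [Fintype.card_prod, Fintype.card_prod, hcard]
    rw [← hC] at b1
    set S := ∑ x, beta G (rr ℝ B P.a) (D.U x) ∅ i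
    set p := Fintype.card X
    set q := Fintype.card Y
    set β := beta G (pull ℝ (D.aN N1 P.a)) Set.univ ∅ i
    have b3 : 2 * (N * β) ≤ 2 * (p * (N1 * q)) := by
      calc 2 * (N * β) = 2 * N * β := by ring
        _ ≤ 2 * N * (N1 * S + 2 * (p * (C * q))) := Nat.mul_le_mul_left _ b1
        _ = N1 * (2 * N * S) + (4 * N * C) * (p * q) := by ring
        _ ≤ N1 * (p * q) + N1 * (p * q) := Nat.add_le_add (Nat.mul_le_mul_left _ b2)
            (Nat.mul_le_mul_right _ (by omega))
        _ = 2 * (p * (N1 * q)) := by ring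
    omega

end

end Pool.Agent.R703.MO
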